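import Mathlib

/-! Gaussian measures on `ℝⁿ` and `ℝⁿ × ℝⁿ`: moments, differentiation under the integral sign,
the Stein identity and rotation invariance. -/

open MeasureTheory ProbabilityTheory Filter
open scoped ENNReal Topology

namespace Pool.Agent.Helper228.GH

noncomputable section

/-- standard Gaussian measure on `ℝⁿ` -/
abbrev γ (n : ℕ) : Measure (Fin n → ℝ) := Measure.pi fun _ => gaussianReal 0 1

/-- the space of pairs -/
abbrev W (n : ℕ) := (Fin n → ℝ) × (Fin n → ℝ)

/-- standard Gaussian measure on pairs -/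
abbrev μ (n : ℕ) : Measure (W n) := (γ n).prod (γ n)

/-! ### Gaussianity, moments, rotation invariance -/

instance isGaussian_γ (n : ℕ) : IsGaussian (γ n) := by
  have h : (γ n).map (EuclideanSpace.equiv (Fin n) ℝ).symm
      = stdGaussian (EuclideanSpace ℝ (Fin n)) := map_pi_eq_stdGaussian
  have h2 : IsGaussian ((γ n).map (EuclideanSpace.equiv (Fin n) ℝ).symm) := by
    rw [h]; infer_instance
  exact (isGaussian_map_equiv_iff (EuclideanSpace.equiv (Fin n) ℝ).symm).1 h2

lemma integrable_pow_W (n K : ℕ) : Integrable (fun w : W n => (1 + ‖w‖) ^ K) (μ n) := by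
  by_cases hK : K = 0
  · subst hK; simp
  have h1 : MemLp (id : W n → W n) K (μ n) :=
    IsGaussian.memLp_id (μ n) (K : ℝ≥0∞) (by simp)
  have h2 : MemLp (fun w : W n => (1 : ℝ) + ‖w‖) K (μ n) :=
    (memLp_const (1 : ℝ)).add h1.norm
  have h3 := h2.integrable_norm_pow hK
  refine h3.congr (Eventually.of_forall fun w => ?_)
  have : (0 : ℝ) ≤ 1 + ‖w‖ := by positivity
  simp [Real.norm_of_nonneg this]

lemma integral_id_γ (n : ℕ) : (γ n)[id] = 0 := by
  have hint : Integrable (id : (Fin n → ℝ) → (Fin n → ℝ)) (γ n) := IsGaussian.integrable_id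
  funext j
  have h1 : (∫ x, (id x : Fin n → ℝ) ∂(γ n)) j = ∫ x : Fin n → ℝ, x j ∂(γ n) := by
    have := (ContinuousLinearMap.proj (R := ℝ) (φ := fun _ : Fin n => ℝ) j).integral_comp_comm hint
    simpa using this.symm
  rw [h1]
  have h2 := measurePreserving_eval (fun _ : Fin n => gaussianReal 0 1) j
  have h3 : ∫ x : Fin n → ℝ, x j ∂(γ n) = ∫ t, t ∂(gaussianReal 0 1) := by
    rw [← h2.map_eq, integral_map (measurable_pi_apply j).aemeasurable
      (by fun_prop)]
  rw [h3]; simp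

lemma map_rotation (n : ℕ) (θ : ℝ) :
    (μ n).map (ContinuousLinearMap.rotation θ) = μ n :=
  IsGaussian.map_rotation_eq_self (integral_id_γ n) θ

/-! ### differentiation under the integral sign -/

lemma hasDerivAt_int {n : ℕ} {𝕜 : Type*} [RCLike 𝕜] [NormedSpace 𝕜 ℂ] [IsScalarTower ℝ 𝕜 ℂ]
    (G G' : 𝕜 → W n → ℂ) (t₀ : 𝕜)
    (hd : ∀ t w, HasDerivAt (fun t => G t w) (G' t w) t)
    (hm : ∀ t, Continuous (G t)) (hm' : Continuous (G' t₀))
    (hi : Integrable (G t₀) (μ n)) (C : ℝ) (K : ℕ)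
    (hb : ∀ t ∈ Metric.ball t₀ 1, ∀ w, ‖G' t w‖ ≤ C * (1 + ‖w‖) ^ K) :
    HasDerivAt (fun t => ∫ w, G t w ∂(μ n)) (∫ w, G' t₀ w ∂(μ n)) t₀ := by
  refine (hasDerivAt_integral_of_dominated_loc_of_deriv_le
    (bound := fun w => C * (1 + ‖w‖) ^ K) (Metric.ball_mem_nhds t₀ one_pos)
    (Eventually.of_forall fun t => (hm t).aestronglyMeasurable) hi hm'.aestronglyMeasurable
    (Eventually.of_forall fun w t ht => hb t ht w) ((integrable_pow_W n K).const_mul C)
    (Eventually.of_forall fun w t _ => hd t w)).2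

/-! ### Stein -/

lemma hasDerivAt_pdf (t : ℝ) :
    HasDerivAt (fun t => (gaussianPDFReal 0 1 t : ℂ)) (-(t : ℂ) * gaussianPDFReal 0 1 t) t := by
  have h : HasDerivAt (fun t => gaussianPDFReal 0 1 t) (-t * gaussianPDFReal 0 1 t) t := by
    have h1 : gaussianPDFReal 0 1 = fun t => (√(2 * Real.pi * 1))⁻¹ * Real.exp (-(t - 0) ^ 2 / (2 * 1)) := by
      funext t; simp [gaussianPDFReal]
    rw [h1]
    have h2 : HasDerivAt (fun t : ℝ => -(t - 0) ^ 2 / (2 * 1)) (-t) t := by
      have := (((hasDerivAt_id t).sub_const 0).pow 2).neg.div_const (2 * 1)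
      refine this.congr_deriv ?_
      simp; ring
    have h3 := (h2.exp).const_mul ((√(2 * Real.pi * 1))⁻¹)
    refine h3.congr_deriv ?_
    ring
  have h4 := h.ofReal_comp
  refine h4.congr_deriv ?_
  push_cast; ring

lemma integrable_gauss_iff (g : ℝ → ℂ) :
    Integrable g (gaussianReal 0 1) ↔ Integrable (fun t : ℝ => (gaussianPDFReal 0 1 t : ℂ) * g t) := by
  rw [gaussianReal_of_var_ne_zero _ one_ne_zero,
    integrable_withDensity_iff_integrable_smul' (measurable_gaussianPDF _ _)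
      (ae_of_all _ fun _ ↦ gaussianPDF_lt_top)]
  refine iff_of_eq ?_
  congr 1
  funext t
  simp [gaussianPDF, ENNReal.toReal_ofReal (gaussianPDFReal_nonneg _ _ _)]

lemma integral_gauss (g : ℝ → ℂ) :
    ∫ t, g t ∂(gaussianReal 0 1) = ∫ t : ℝ, (gaussianPDFReal 0 1 t : ℂ) * g t := by
  rw [integral_gaussianReal_eq_integral_smul one_ne_zero]
  simp

lemma stein1 (g g' : ℝ → ℂ) (hg : ∀ t, HasDerivAt g (g' t) t)
    (h1 : Integrable g (gaussianReal 0 1)) (h2 : Integrable (fun t : ℝ => (t : ℂ) * g t) (gaussianReal 0 1))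
    (h3 : Integrable g' (gaussianReal 0 1)) :
    ∫ t : ℝ, (t : ℂ) * g t ∂(gaussianReal 0 1) = ∫ t, g' t ∂(gaussianReal 0 1) := by
  rw [integral_gauss, integral_gauss]
  rw [integrable_gauss_iff] at h1 h2 h3
  have := integral_mul_deriv_eq_deriv_mul_of_integrable
    (u := fun t => (gaussianPDFReal 0 1 t : ℂ)) (v := g)
    (u' := fun t => -(t : ℂ) * gaussianPDFReal 0 1 t) (v' := g')
    (fun t _ => hasDerivAt_pdf t) (fun t _ => hg t) h3
    (by
      refine h2.neg.congr (Eventually.of_forall fun t => ?_)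
      simp only [Pi.neg_apply, Pi.mul_apply]; ring) h1
  rw [this, ← integral_neg]
  congr 1
  funext t
  ring

lemma stein_gen {E : Type*} [MeasurableSpace E] (ν : Measure E) [SFinite ν]
    (G G' : ℝ × E → ℂ) (hd : ∀ t e, HasDerivAt (fun t => G (t, e)) (G' (t, e)) t)
    (h1 : Integrable G ((gaussianReal 0 1).prod ν))
    (h2 : Integrable (fun p => (p.1 : ℂ) * G p) ((gaussianReal 0 1).prod ν))
    (h3 : Integrable G' ((gaussianReal 0 1).prod ν)) :
    ∫ p, (p.1 : ℂ) * G p ∂((gaussianReal 0 1).prod ν) = ∫ p, G' p ∂((gaussianReal 0 1).prod ν) := by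
  rw [integral_prod_symm _ h2, integral_prod_symm _ h3]
  refine integral_congr_ae ?_
  filter_upwards [h1.prod_left_ae, h2.prod_left_ae, h3.prod_left_ae] with e e1 e2 e3
  exact stein1 (fun t => G (t, e)) (fun t => G' (t, e)) (fun t => hd t e) e1 e2 e3

lemma stein_pi {n : ℕ} (k : Fin n) (G G' : (Fin n → ℝ) → ℂ)
    (hd : ∀ x, HasDerivAt (fun t => G (Function.update x k t)) (G' x) (x k))
    (h1 : Integrable G (γ n)) (h2 : Integrable (fun x => (x k : ℂ) * G x) (γ n))
    (h3 : Integrable G' (γ n)) :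
    ∫ x, (x k : ℂ) * G x ∂(γ n) = ∫ x, G' x ∂(γ n) := by
  obtain ⟨m, rfl⟩ : ∃ m, n = m + 1 := ⟨n - 1, by have := k.2; omega⟩
  have e := (measurePreserving_piFinSuccAbove (fun _ : Fin (m + 1) => gaussianReal 0 1) k).symm
  set E := (MeasurableEquiv.piFinSuccAbove (fun _ : Fin (m + 1) => ℝ) k).symm with hE
  have hemb : MeasurableEmbedding E := E.measurableEmbedding
  rw [← e.integral_comp hemb, ← e.integral_comp hemb]
  rw [← e.integrable_comp_emb hemb] at h1 h2 h3
  have hk : ∀ p : ℝ × (Fin m → ℝ), (E p) k = p.1 := by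
    intro p; simp [hE, MeasurableEquiv.piFinSuccAbove_symm_apply, Fin.insertNthEquiv]
  have hupd : ∀ (p : ℝ × (Fin m → ℝ)) (t : ℝ), Function.update (E p) k t = E (t, p.2) := by
    intro p t
    simp [hE, MeasurableEquiv.piFinSuccAbove_symm_apply, Fin.insertNthEquiv]
  have := stein_gen (Measure.pi fun _ : Fin m => gaussianReal 0 1) (fun p => G (E p)) (fun p => G' (E p))
    (by
      intro t y
      have h := hd (E (t, y))
      rw [hk] at h
      simpa [hupd] using h) h1
    (by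
      refine h2.congr (Eventually.of_forall fun p => ?_)
      simp [hk]) h3
  rw [← this]
  simp only [hk]

lemma stein_fst {n : ℕ} (k : Fin n) (G G' : W n → ℂ)
    (hd : ∀ x y, HasDerivAt (fun t => G (Function.update x k t, y)) (G' (x, y)) (x k))
    (h1 : Integrable G (μ n)) (h2 : Integrable (fun w => (w.1 k : ℂ) * G w) (μ n))
    (h3 : Integrable G' (μ n)) :
    ∫ w, (w.1 k : ℂ) * G w ∂(μ n) = ∫ w, G' w ∂(μ n) := by
  rw [integral_prod_symm _ h2, integral_prod_symm _ h3]
  refine integral_congr_ae ?_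
  filter_upwards [h1.prod_left_ae, h2.prod_left_ae, h3.prod_left_ae] with y e1 e2 e3
  exact stein_pi k (fun x => G (x, y)) (fun x => G' (x, y)) (fun x => hd x y) e1 e2 e3

lemma stein_snd {n : ℕ} (k : Fin n) (G G' : W n → ℂ)
    (hd : ∀ x y, HasDerivAt (fun t => G (x, Function.update y k t)) (G' (x, y)) (y k))
    (h1 : Integrable G (μ n)) (h2 : Integrable (fun w => (w.2 k : ℂ) * G w) (μ n))
    (h3 : Integrable G' (μ n)) :
    ∫ w, (w.2 k : ℂ) * G w ∂(μ n) = ∫ w, G' w ∂(μ n) := by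
  rw [integral_prod _ h2, integral_prod _ h3]
  refine integral_congr_ae ?_
  filter_upwards [h1.prod_right_ae, h2.prod_right_ae, h3.prod_right_ae] with x e1 e2 e3
  exact stein_pi k (fun y => G (x, y)) (fun y => G' (x, y)) (fun y => hd x y) e1 e2 e3

end

end Pool.Agent.Helper228.GH
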