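import Pool.Agent.Helper228.GH.Eval

/-! Derivative in `τ` of the Gaussian expectations. -/

open MeasureTheory ProbabilityTheory Filter MvPolynomial
open scoped ENNReal Topology

namespace Pool.Agent.Helper228.GH

noncomputable section

/-- polynomial bounds, locally uniform in `τ` -/
def PB {n : ℕ} (G : ℝ → W n → ℂ) : Prop :=
  ∃ (A : ℝ) (K : ℕ), 0 ≤ A ∧ ∀ τ w, ‖G τ w‖ ≤ A * (2 * Real.cosh τ * (1 + ‖w‖)) ^ K

lemma PB.add {n : ℕ} {G H : ℝ → W n → ℂ} (hG : PB G) (hH : PB H) :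
    PB (fun τ w => G τ w + H τ w) := by
  obtain ⟨A, K, hA, h⟩ := hG
  obtain ⟨A', K', hA', h'⟩ := hH
  refine ⟨A + A', K + K', by positivity, fun τ w => ?_⟩
  have hB := one_le_B τ w
  set B := 2 * Real.cosh τ * (1 + ‖w‖)
  have h1 : B ^ K ≤ B ^ (K + K') := pow_le_pow_right₀ hB (by omega)
  have h2 : B ^ K' ≤ B ^ (K + K') := pow_le_pow_right₀ hB (by omega)
  refine (norm_add_le _ _).trans ((add_le_add (h τ w) (h' τ w)).trans ?_)
  rw [add_mul]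
  exact add_le_add (mul_le_mul_of_nonneg_left h1 hA) (mul_le_mul_of_nonneg_left h2 hA')

lemma PB.mul {n : ℕ} {G H : ℝ → W n → ℂ} (hG : PB G) (hH : PB H) :
    PB (fun τ w => G τ w * H τ w) := by
  obtain ⟨A, K, hA, h⟩ := hG
  obtain ⟨A', K', hA', h'⟩ := hH
  refine ⟨A * A', K + K', by positivity, fun τ w => ?_⟩
  have hB := one_le_B τ w
  set B := 2 * Real.cosh τ * (1 + ‖w‖)
  rw [norm_mul]
  refine (mul_le_mul (h τ w) (h' τ w) (norm_nonneg _) (by positivity)).trans (le_of_eq ?_)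
  rw [pow_add]; ring

lemma PB.of_bdd {n : ℕ} (c : ℝ → ℂ) (A : ℝ) (h : ∀ τ, ‖c τ‖ ≤ A) :
    PB (n := n) (fun τ _ => c τ) := by
  refine ⟨A, 0, (norm_nonneg _).trans (h 0), fun τ w => by simpa using h τ⟩

lemma PB.sum {n : ℕ} {ι : Type*} (s : Finset ι) {G : ι → ℝ → W n → ℂ} (hG : ∀ i ∈ s, PB (G i)) :
    PB (fun τ w => ∑ i ∈ s, G i τ w) := by
  classical
  induction s using Finset.induction_on with
  | empty => exact ⟨0, 0, le_rfl, by simp⟩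
  | insert a s ha ih =>
    simp only [Finset.sum_insert ha]
    exact (hG a (Finset.mem_insert_self a s)).add
      (ih fun i hi => hG i (Finset.mem_insert_of_mem hi))

lemma PB_Z' {n : ℕ} (i : Fin n ⊕ Fin n) : PB (fun τ w => Z' τ w i) :=
  ⟨1, 1, by norm_num, fun τ w => by simpa using norm_Z'_le τ w i⟩

lemma PB_Psi {n : ℕ} {s₀ : R n} (hs : Nonneg s₀) (κ : ℂ) (Q : R n) (c : ℝ → ℝ)
    (hc : ∀ τ, 0 ≤ c τ) (hc1 : ∀ τ, c τ ≤ 1) : PB (fun τ w => Psi s₀ (c τ) κ Q (Z τ w)) := by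
  obtain ⟨A, K, hA, h⟩ := Psi_bound hs κ Q
  exact ⟨A, K, hA, fun τ w => h (c τ) (hc τ) (hc1 τ) τ w⟩

lemma Psi_dS {n : ℕ} (s₀ : R n) (c κ : ℂ) (i : Fin n ⊕ Fin n) (Q : R n) (z : Fin n ⊕ Fin n → ℂ)
    (hE : 1 + c * eval z s₀ ≠ 0) :
    Psi s₀ c (κ - 1) (dS s₀ c κ i Q) z
      = Psi s₀ c κ (pderiv i Q) z + κ * c * Psi s₀ c (κ - 1) (Q * pderiv i s₀) z := by
  unfold Psi
  have h6 : (1 + c * eval z s₀) ^ κ
      = (1 + c * eval z s₀) * (1 + c * eval z s₀) ^ (κ - 1) := by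
    rw [Complex.cpow_sub _ _ hE, Complex.cpow_one]
    field_simp
  rw [h6]
  simp only [dS, map_add, map_mul, map_one, eval_C]
  ring

lemma PB_Psi_dS {n : ℕ} {s₀ : R n} (hs : Nonneg s₀) (κ : ℂ) (Q : R n) (c : ℝ → ℝ)
    (hc : ∀ τ, 0 ≤ c τ) (hc1 : ∀ τ, c τ ≤ 1) (i : Fin n ⊕ Fin n) :
    PB (fun τ w => Psi s₀ (c τ) (κ - 1) (dS s₀ (c τ) κ i Q) (Z τ w)) := by
  have h1 := PB_Psi hs κ (pderiv i Q) c hc hc1
  have h2 := PB_Psi hs (κ - 1) (Q * pderiv i s₀) c hc hc1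
  have h3 : PB (n := n) (fun τ _ => κ * (c τ : ℂ)) := by
    refine PB.of_bdd _ ‖κ‖ fun τ => ?_
    rw [norm_mul, Complex.norm_real, Real.norm_of_nonneg (hc τ)]
    exact mul_le_of_le_one_right (norm_nonneg _) (hc1 τ)
  have h4 := h1.add (h3.mul h2)
  have e : (fun (τ : ℝ) (w : W n) => Psi s₀ (c τ) (κ - 1) (dS s₀ (c τ) κ i Q) (Z τ w))
      = fun τ w => Psi s₀ (c τ) κ (pderiv i Q) (Z τ w)
        + κ * (c τ : ℂ) * Psi s₀ (c τ) (κ - 1) (Q * pderiv i s₀) (Z τ w) := by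
    funext τ w
    rw [Psi_dS _ _ _ _ _ _ (Complex.slitPlane_ne_zero (mem_slit hs (hc τ) τ w))]
  rw [e]
  exact h4

/-- the coefficient `(cosh 2τ)^{-d}` -/
def cf (d : ℕ) (τ : ℝ) : ℝ := ((Real.cosh (2 * τ))⁻¹) ^ d

lemma cf_nonneg (d : ℕ) (τ : ℝ) : 0 ≤ cf d τ :=
  pow_nonneg (inv_nonneg.2 (Real.cosh_pos _).le) _

lemma cf_le_one (d : ℕ) (τ : ℝ) : cf d τ ≤ 1 :=
  pow_le_one₀ (inv_nonneg.2 (Real.cosh_pos _).le) (inv_le_one_of_one_le₀ (Real.one_le_cosh _))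

lemma abs_tanh_le_one (x : ℝ) : |Real.tanh x| ≤ 1 := by
  rw [Real.tanh_eq_sinh_div_cosh, abs_div, abs_of_pos (Real.cosh_pos x)]
  exact div_le_one_of_le₀ (abs_sinh_le_cosh x) (Real.cosh_pos x).le

lemma hasDerivAt_cf (d : ℕ) (τ : ℝ) :
    HasDerivAt (cf d) (-(2 * d * Real.tanh (2 * τ) * cf d τ)) τ := by
  have h0 : HasDerivAt (fun τ : ℝ => 2 * τ) 2 τ := by simpa using (hasDerivAt_id τ).const_mul 2
  have h1 : HasDerivAt (fun τ => Real.cosh (2 * τ)) (Real.sinh (2 * τ) * 2) τ := h0.cosh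
  have hpos := Real.cosh_pos (2 * τ)
  have h2 := (h1.fun_inv hpos.ne').fun_pow d
  unfold cf
  refine h2.congr_deriv ?_
  rw [Real.tanh_eq_sinh_div_cosh]
  rcases d with _ | d
  · simp
  · simp only [Nat.add_sub_cancel, pow_succ]
    field_simp

/-- integrand of the derivative -/
def dG {n : ℕ} (s₀ : R n) (d : ℕ) (κ : ℂ) (Q : R n) (τ : ℝ) (w : W n) : ℂ :=
  ∑ i, Psi s₀ (cf d τ) (κ - 1) (dS s₀ (cf d τ) κ i Q) (Z τ w) * Z' τ w i
    + (-(2 * d * Real.tanh (2 * τ) * cf d τ) : ℝ) * κ * Psi s₀ (cf d τ) (κ - 1) (s₀ * Q) (Z τ w)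

lemma hasDerivAt_J0 {n : ℕ} {s₀ : R n} (hs : Nonneg s₀) (d : ℕ) (κ : ℂ) (Q : R n) (τ : ℝ) :
    HasDerivAt (fun τ => J s₀ (cf d τ) κ Q τ) (∫ w, dG s₀ d κ Q τ w ∂(μ n)) τ := by
  have hPB : PB (n := n) (dG s₀ d κ Q) := by
    unfold dG
    refine PB.add (PB.sum _ fun i _ => (PB_Psi_dS hs κ Q _ (cf_nonneg d) (cf_le_one d) i).mul
      (PB_Z' i)) ?_
    refine PB.mul ?_ (PB_Psi hs (κ - 1) (s₀ * Q) _ (cf_nonneg d) (cf_le_one d))
    refine PB.of_bdd _ (2 * d * ‖κ‖) fun τ => ?_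
    rw [norm_mul, Complex.norm_real, Real.norm_eq_abs, abs_neg, abs_mul, abs_mul,
      abs_of_nonneg (cf_nonneg d τ), abs_of_nonneg (by positivity : (0:ℝ) ≤ 2 * d)]
    refine mul_le_mul_of_nonneg_right ?_ (norm_nonneg _)
    have h1 := abs_tanh_le_one (2 * τ)
    have h2 := cf_le_one d τ
    have h3 := cf_nonneg d τ
    have h4 : (0:ℝ) ≤ 2 * d := by positivity
    calc 2 * (d:ℝ) * |Real.tanh (2 * τ)| * cf d τ ≤ 2 * d * 1 * 1 := by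
          gcongr
      _ = 2 * d := by ring
  obtain ⟨A, K, hA, hb⟩ := hPB
  refine hasDerivAt_int (𝕜 := ℝ) (fun τ w => Psi s₀ (cf d τ) κ Q (Z τ w)) (dG s₀ d κ Q) τ ?_ ?_ ?_
    (integrable_Psi hs (cf_nonneg d τ) (cf_le_one d τ) κ Q τ)
    (A * (2 * Real.cosh (|τ| + 1)) ^ K) K ?_
  · intro t w
    exact hasDerivAt_Psi s₀ (fun τ => (cf d τ : ℂ)) _ κ Q (fun τ => Z τ w) (Z' t w) t
      (fun i => hasDerivAt_Z t w i) (hasDerivAt_cf d t).ofReal_comp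
      (mem_slit hs (cf_nonneg d t) t w)
  · intro t
    exact continuous_Psi hs (cf_nonneg d t) κ Q t
  · unfold dG
    refine (continuous_finsetSum _ fun i _ => ?_).add ?_
    · exact (continuous_Psi hs (cf_nonneg d τ) _ _ τ).mul (continuous_Z' τ i)
    · exact continuous_const.mul (continuous_Psi hs (cf_nonneg d τ) _ _ τ)
  · intro t ht w
    refine (hb t w).trans ?_
    rw [mul_assoc A, ← mul_pow]
    refine mul_le_mul_of_nonneg_left ?_ hA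
    have hc : Real.cosh t ≤ Real.cosh (|τ| + 1) := by
      rw [Real.cosh_le_cosh, abs_of_nonneg (by positivity : (0:ℝ) ≤ |τ| + 1)]
      rw [Metric.mem_ball, Real.dist_eq] at ht
      have := abs_sub_abs_le_abs_sub t τ
      linarith
    have := Real.cosh_pos t
    gcongr

/-- twofold derivative term -/
def a2 {n : ℕ} (s₀ : R n) (c : ℝ) (κ : ℂ) (Q : R n) (τ : ℝ) (i k : Fin n ⊕ Fin n) : ℂ :=
  J s₀ c (κ - 1 - 1) (dS s₀ c (κ - 1) k (dS s₀ c κ i Q)) τ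

lemma integral_dG {n : ℕ} {s₀ : R n} (hs : Nonneg s₀) (d : ℕ) (κ : ℂ) (Q : R n) (τ : ℝ) :
    ∫ w, dG s₀ d κ Q τ w ∂(μ n) =
      ∑ j, 2 * Real.sinh τ * Real.cosh τ * (a2 s₀ (cf d τ) κ Q τ (Sum.inl j) (Sum.inr j)
        + a2 s₀ (cf d τ) κ Q τ (Sum.inr j) (Sum.inl j))
      + (-(2 * d * Real.tanh (2 * τ) * cf d τ) : ℝ) * κ * J s₀ (cf d τ) (κ - 1) (s₀ * Q) τ := by
  have h0 := cf_nonneg d τ
  have h1 := cf_le_one d τ
  set c := cf d τ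
  have hX : ∀ (i : Fin n ⊕ Fin n) (j : Fin n), Integrable
      (fun w : W n => (w.1 j : ℂ) * Psi s₀ c (κ - 1) (dS s₀ c κ i Q) (Z τ w)) (μ n) := fun i j =>
    integrable_lin_Psi hs h0 h1 _ _ τ (fun w => w.1 j) (by fun_prop) (fun w => abs_fst_le w j)
  have hY : ∀ (i : Fin n ⊕ Fin n) (j : Fin n), Integrable
      (fun w : W n => (w.2 j : ℂ) * Psi s₀ c (κ - 1) (dS s₀ c κ i Q) (Z τ w)) (μ n) := fun i j =>
    integrable_lin_Psi hs h0 h1 _ _ τ (fun w => w.2 j) (by fun_prop) (fun w => abs_snd_le w j)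
  have e : ∀ w : W n, dG s₀ d κ Q τ w = ∑ j, (
      ((Real.sinh τ : ℂ) * ((w.1 j : ℂ) * Psi s₀ c (κ - 1) (dS s₀ c κ (Sum.inl j) Q) (Z τ w))
      + (Complex.I * Real.cosh τ) *
        ((w.2 j : ℂ) * Psi s₀ c (κ - 1) (dS s₀ c κ (Sum.inl j) Q) (Z τ w)))
      + ((Real.sinh τ : ℂ) * ((w.1 j : ℂ) * Psi s₀ c (κ - 1) (dS s₀ c κ (Sum.inr j) Q) (Z τ w))
      - (Complex.I * Real.cosh τ) *
        ((w.2 j : ℂ) * Psi s₀ c (κ - 1) (dS s₀ c κ (Sum.inr j) Q) (Z τ w))))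
      + ((-(2 * d * Real.tanh (2 * τ) * c) : ℝ) * κ) * Psi s₀ c (κ - 1) (s₀ * Q) (Z τ w) := by
    intro w
    unfold dG
    rw [Fintype.sum_sum_type, ← Finset.sum_add_distrib]
    congr 1
    refine Finset.sum_congr rfl fun j _ => ?_
    simp only [Z', Sum.elim_inl, Sum.elim_inr]
    ring
  have hint : ∀ j : Fin n, Integrable (fun w : W n =>
      (((Real.sinh τ : ℂ) * ((w.1 j : ℂ) * Psi s₀ c (κ - 1) (dS s₀ c κ (Sum.inl j) Q) (Z τ w))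
      + (Complex.I * Real.cosh τ) *
        ((w.2 j : ℂ) * Psi s₀ c (κ - 1) (dS s₀ c κ (Sum.inl j) Q) (Z τ w)))
      + ((Real.sinh τ : ℂ) * ((w.1 j : ℂ) * Psi s₀ c (κ - 1) (dS s₀ c κ (Sum.inr j) Q) (Z τ w))
      - (Complex.I * Real.cosh τ) *
        ((w.2 j : ℂ) * Psi s₀ c (κ - 1) (dS s₀ c κ (Sum.inr j) Q) (Z τ w))))) (μ n) := by
    intro j
    exact (((hX _ j).const_mul _).add ((hY _ j).const_mul _)).add
      (((hX _ j).const_mul _).sub ((hY _ j).const_mul _))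
  rw [integral_congr_ae (Eventually.of_forall e)]
  rw [integral_add (integrable_finsetSum _ fun j _ => hint j)
    ((integrable_Psi hs h0 h1 _ _ τ).const_mul _), integral_finsetSum _ fun j _ => hint j,
    integral_const_mul]
  congr 1
  refine Finset.sum_congr rfl fun j _ => ?_
  have k1 := ((hX (Sum.inl j) j).const_mul (Real.sinh τ : ℂ))
  have k2 := ((hY (Sum.inl j) j).const_mul (Complex.I * Real.cosh τ))
  have k3 := ((hX (Sum.inr j) j).const_mul (Real.sinh τ : ℂ))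
  have k4 := ((hY (Sum.inr j) j).const_mul (Complex.I * Real.cosh τ))
  have k5 := integral_add (k1.add k2) (k3.sub k4)
  simp only [Pi.add_apply, Pi.sub_apply] at k5
  rw [k5, integral_add k1 k2, integral_sub k3 k4,
    integral_const_mul, integral_const_mul, integral_const_mul, integral_const_mul,
    steinX hs h0 h1, steinX hs h0 h1, steinY hs h0 h1, steinY hs h0 h1]
  unfold a2
  linear_combination (Real.cosh τ * Real.sinh τ *
    (J s₀ c (κ - 1 - 1) (dS s₀ c (κ - 1) (Sum.inl j) (dS s₀ c κ (Sum.inl j) Q)) τ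
    - J s₀ c (κ - 1 - 1) (dS s₀ c (κ - 1) (Sum.inr j) (dS s₀ c κ (Sum.inl j) Q)) τ
    - J s₀ c (κ - 1 - 1) (dS s₀ c (κ - 1) (Sum.inl j) (dS s₀ c κ (Sum.inr j) Q)) τ
    + J s₀ c (κ - 1 - 1) (dS s₀ c (κ - 1) (Sum.inr j) (dS s₀ c κ (Sum.inr j) Q)) τ)) * Complex.I_sq

lemma pderiv_comm {n : ℕ} (i k : Fin n ⊕ Fin n) (Q : R n) :
    pderiv i (pderiv k Q) = pderiv k (pderiv i Q) := by
  have h : ⁅(pderiv i : Derivation ℂ (R n) (R n)), (pderiv k : Derivation ℂ (R n) (R n))⁆ = 0 := by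
    classical
    refine MvPolynomial.derivation_ext fun l => ?_
    rw [Derivation.commutator_apply]
    simp only [pderiv_X, Derivation.zero_apply]
    simp only [Pi.single_apply]
    split_ifs <;> simp
  have := congrArg (fun D : Derivation ℂ (R n) (R n) => D Q) h
  simp only [Derivation.commutator_apply, Derivation.zero_apply, sub_eq_zero] at this
  exact this

lemma dS_comm {n : ℕ} (s₀ : R n) (c κ : ℂ) (i k : Fin n ⊕ Fin n) (Q : R n) :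
    dS s₀ c (κ - 1) k (dS s₀ c κ i Q) = dS s₀ c (κ - 1) i (dS s₀ c κ k Q) := by
  simp only [dS, map_add, Derivation.leibniz, smul_eq_mul, pderiv_one, pderiv_C, pderiv_comm k i]
  simp only [map_sub, C_mul, C_1]
  ring

lemma a2_comm {n : ℕ} (s₀ : R n) (c : ℝ) (κ : ℂ) (Q : R n) (τ : ℝ) (i k : Fin n ⊕ Fin n) :
    a2 s₀ c κ Q τ i k = a2 s₀ c κ Q τ k i := by
  unfold a2; rw [dS_comm]

lemma stein_bar {n : ℕ} {s₀ : R n} (hs : Nonneg s₀) {c : ℝ} (hc : 0 ≤ c) (hc1 : c ≤ 1)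
    (κ : ℂ) (Q : R n) (τ : ℝ) (j : Fin n) :
    J s₀ c κ (X (Sum.inr j) * Q) τ = Real.cosh (2 * τ) * J s₀ c (κ - 1) (dS s₀ c κ (Sum.inl j) Q) τ
      + J s₀ c (κ - 1) (dS s₀ c κ (Sum.inr j) Q) τ := by
  have hX := integrable_lin_Psi hs hc hc1 κ Q τ (fun w => w.1 j) (by fun_prop)
    (fun w => abs_fst_le w j)
  have hY := integrable_lin_Psi hs hc hc1 κ Q τ (fun w => w.2 j) (by fun_prop)
    (fun w => abs_snd_le w j)
  have e : ∀ w : W n, Psi s₀ c κ (X (Sum.inr j) * Q) (Z τ w)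
      = (Real.cosh τ : ℂ) * ((w.1 j : ℂ) * Psi s₀ c κ Q (Z τ w))
        - (Complex.I * Real.sinh τ) * ((w.2 j : ℂ) * Psi s₀ c κ Q (Z τ w)) := by
    intro w
    simp only [Psi, map_mul, eval_X, Z, Sum.elim_inr]
    ring
  rw [J, integral_congr_ae (Eventually.of_forall e), integral_sub (hX.const_mul _)
    (hY.const_mul _), integral_const_mul, integral_const_mul, steinX hs hc hc1, steinY hs hc hc1]
  have h2 : (Real.cosh (2 * τ) : ℂ) = (Real.cosh τ : ℂ) ^ 2 + (Real.sinh τ : ℂ) ^ 2 := by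
    rw [Real.cosh_two_mul]; push_cast; ring
  have h3 : (Real.cosh τ : ℂ) ^ 2 - (Real.sinh τ : ℂ) ^ 2 = 1 := by
    have := Real.cosh_sq_sub_sinh_sq τ
    exact_mod_cast this
  rw [h2]
  linear_combination (J s₀ c (κ - 1) (dS s₀ c κ (Sum.inr j) Q) τ) * h3
    - (Real.sinh τ : ℂ) ^ 2 * (J s₀ c (κ - 1) (dS s₀ c κ (Sum.inl j) Q) τ
      - J s₀ c (κ - 1) (dS s₀ c κ (Sum.inr j) Q) τ) * Complex.I_sq

lemma stein_hol {n : ℕ} {s₀ : R n} (hs : Nonneg s₀) {c : ℝ} (hc : 0 ≤ c) (hc1 : c ≤ 1)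
    (κ : ℂ) (Q : R n) (τ : ℝ) (j : Fin n) :
    J s₀ c κ (X (Sum.inl j) * Q) τ = Real.cosh (2 * τ) * J s₀ c (κ - 1) (dS s₀ c κ (Sum.inr j) Q) τ
      + J s₀ c (κ - 1) (dS s₀ c κ (Sum.inl j) Q) τ := by
  have hX := integrable_lin_Psi hs hc hc1 κ Q τ (fun w => w.1 j) (by fun_prop)
    (fun w => abs_fst_le w j)
  have hY := integrable_lin_Psi hs hc hc1 κ Q τ (fun w => w.2 j) (by fun_prop)
    (fun w => abs_snd_le w j)
  have e : ∀ w : W n, Psi s₀ c κ (X (Sum.inl j) * Q) (Z τ w)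
      = (Real.cosh τ : ℂ) * ((w.1 j : ℂ) * Psi s₀ c κ Q (Z τ w))
        + (Complex.I * Real.sinh τ) * ((w.2 j : ℂ) * Psi s₀ c κ Q (Z τ w)) := by
    intro w
    simp only [Psi, map_mul, eval_X, Z, Sum.elim_inl]
    ring
  rw [J, integral_congr_ae (Eventually.of_forall e), integral_add (hX.const_mul _)
    (hY.const_mul _), integral_const_mul, integral_const_mul, steinX hs hc hc1, steinY hs hc hc1]
  have h2 : (Real.cosh (2 * τ) : ℂ) = (Real.cosh τ : ℂ) ^ 2 + (Real.sinh τ : ℂ) ^ 2 := by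
    rw [Real.cosh_two_mul]; push_cast; ring
  have h3 : (Real.cosh τ : ℂ) ^ 2 - (Real.sinh τ : ℂ) ^ 2 = 1 := by
    have := Real.cosh_sq_sub_sinh_sq τ
    exact_mod_cast this
  rw [h2]
  linear_combination (J s₀ c (κ - 1) (dS s₀ c κ (Sum.inl j) Q) τ) * h3
    + (Real.sinh τ : ℂ) ^ 2 * (J s₀ c (κ - 1) (dS s₀ c κ (Sum.inl j) Q) τ
      - J s₀ c (κ - 1) (dS s₀ c κ (Sum.inr j) Q) τ) * Complex.I_sq

/-- `E 𝒩̄(Q S^κ)` -/
def ENbar {n : ℕ} (s₀ : R n) (c : ℝ) (κ : ℂ) (Q : R n) (τ : ℝ) : ℂ :=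
  ∑ j, (J s₀ c (κ - 1) (X (Sum.inr j) * dS s₀ c κ (Sum.inr j) Q) τ
    - a2 s₀ c κ Q τ (Sum.inr j) (Sum.inr j))

/-- `E 𝒩(Q S^κ)` -/
def ENhol {n : ℕ} (s₀ : R n) (c : ℝ) (κ : ℂ) (Q : R n) (τ : ℝ) : ℂ :=
  ∑ j, (J s₀ c (κ - 1) (X (Sum.inl j) * dS s₀ c κ (Sum.inl j) Q) τ
    - a2 s₀ c κ Q τ (Sum.inl j) (Sum.inl j))

lemma hasDerivAt_J_bar {n : ℕ} {s₀ : R n} (hs : Nonneg s₀) (d : ℕ) (κ : ℂ) (Q : R n) (τ : ℝ) :
    HasDerivAt (fun τ => J s₀ (cf d τ) κ Q τ)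
      (2 * Real.tanh (2 * τ) * (ENbar s₀ (cf d τ) κ Q τ
        - d * cf d τ * κ * J s₀ (cf d τ) (κ - 1) (s₀ * Q) τ)) τ := by
  refine (hasDerivAt_J0 hs d κ Q τ).congr_deriv ?_
  rw [integral_dG hs]
  have h0 := cf_nonneg d τ
  have h1 := cf_le_one d τ
  set c := cf d τ
  have e : ∀ j : Fin n, 2 * (Real.sinh τ : ℂ) * Real.cosh τ * (a2 s₀ c κ Q τ (Sum.inl j) (Sum.inr j)
        + a2 s₀ c κ Q τ (Sum.inr j) (Sum.inl j))
      = 2 * Real.tanh (2 * τ) * (J s₀ c (κ - 1) (X (Sum.inr j) * dS s₀ c κ (Sum.inr j) Q) τ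
        - a2 s₀ c κ Q τ (Sum.inr j) (Sum.inr j)) := by
    intro j
    rw [a2_comm s₀ c κ Q τ (Sum.inl j) (Sum.inr j), stein_bar hs h0 h1]
    have h2 : (Real.tanh (2 * τ) : ℂ) * Real.cosh (2 * τ) = Real.sinh (2 * τ) := by
      rw [← Complex.ofReal_mul]; congr 1
      rw [Real.tanh_eq_sinh_div_cosh, div_mul_cancel₀ _ (Real.cosh_pos _).ne']
    have h3 : (Real.sinh (2 * τ) : ℂ) = 2 * Real.sinh τ * Real.cosh τ := by
      rw [Real.sinh_two_mul]; push_cast; ring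
    unfold a2
    rw [h3] at h2
    linear_combination (-2 * J s₀ c (κ - 1 - 1) (dS s₀ c (κ - 1) (Sum.inl j) (dS s₀ c κ (Sum.inr j) Q)) τ) * h2
  simp only [e]
  rw [← Finset.mul_sum, ENbar]
  push_cast
  ring

lemma hasDerivAt_J_hol {n : ℕ} {s₀ : R n} (hs : Nonneg s₀) (d : ℕ) (κ : ℂ) (Q : R n) (τ : ℝ) :
    HasDerivAt (fun τ => J s₀ (cf d τ) κ Q τ)
      (2 * Real.tanh (2 * τ) * (ENhol s₀ (cf d τ) κ Q τ
        - d * cf d τ * κ * J s₀ (cf d τ) (κ - 1) (s₀ * Q) τ)) τ := by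
  refine (hasDerivAt_J0 hs d κ Q τ).congr_deriv ?_
  rw [integral_dG hs]
  have h0 := cf_nonneg d τ
  have h1 := cf_le_one d τ
  set c := cf d τ
  have e : ∀ j : Fin n, 2 * (Real.sinh τ : ℂ) * Real.cosh τ * (a2 s₀ c κ Q τ (Sum.inl j) (Sum.inr j)
        + a2 s₀ c κ Q τ (Sum.inr j) (Sum.inl j))
      = 2 * Real.tanh (2 * τ) * (J s₀ c (κ - 1) (X (Sum.inl j) * dS s₀ c κ (Sum.inl j) Q) τ
        - a2 s₀ c κ Q τ (Sum.inl j) (Sum.inl j)) := by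
    intro j
    rw [a2_comm s₀ c κ Q τ (Sum.inr j) (Sum.inl j), stein_hol hs h0 h1]
    have h2 : (Real.tanh (2 * τ) : ℂ) * Real.cosh (2 * τ) = Real.sinh (2 * τ) := by
      rw [← Complex.ofReal_mul]; congr 1
      rw [Real.tanh_eq_sinh_div_cosh, div_mul_cancel₀ _ (Real.cosh_pos _).ne']
    have h3 : (Real.sinh (2 * τ) : ℂ) = 2 * Real.sinh τ * Real.cosh τ := by
      rw [Real.sinh_two_mul]; push_cast; ring
    unfold a2
    rw [h3] at h2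
    linear_combination (-2 * J s₀ c (κ - 1 - 1) (dS s₀ c (κ - 1) (Sum.inr j) (dS s₀ c κ (Sum.inl j) Q)) τ) * h2
  simp only [e]
  rw [← Finset.mul_sum, ENhol]
  push_cast
  ring

end

end Pool.Agent.Helper228.GH
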