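import Pool.Agent.Helper228.GH.Basic

/-! The functions `Q(z, z̄) (1 + c s₀(z, z̄))^κ` and their Gaussian expectations. -/

open MeasureTheory ProbabilityTheory Filter MvPolynomial
open scoped ENNReal Topology

namespace Pool.Agent.Helper228.GH

noncomputable section

/-- derivative of a polynomial along a path. -/
lemma hasDerivAt_eval {σ 𝕜 : Type*} [Fintype σ] [NontriviallyNormedField 𝕜] [NormedAlgebra 𝕜 ℂ]
    (P : MvPolynomial σ ℂ) (z : 𝕜 → σ → ℂ) (z' : σ → ℂ) (t : 𝕜)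
    (hz : ∀ i, HasDerivAt (fun t => z t i) (z' i) t) :
    HasDerivAt (fun t => eval (z t) P) (∑ i, eval (z t) (pderiv i P) * z' i) t := by
  classical
  induction P using MvPolynomial.induction_on with
  | C a => simpa using hasDerivAt_const t a
  | add p q hp hq =>
    have := hp.add hq
    simp only [map_add, add_mul, Finset.sum_add_distrib]
    exact this
  | mul_X p i hp =>
    have := hp.fun_mul (hz i)
    simp only [map_mul, eval_X]
    refine this.congr_deriv ?_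
    simp only [Derivation.leibniz, pderiv_X, smul_eq_mul, map_add, map_mul, eval_X, add_mul,
      Finset.sum_add_distrib, Finset.sum_mul]
    rw [add_comm]
    congr 1
    · rw [Finset.sum_eq_single i]
      · simp
      · intro j _ hj
        simp [hj.symm]
      · simp
    · refine Finset.sum_congr rfl fun j _ => ?_
      ring

/-- polynomials in `z` and `z̄` -/
abbrev R (n : ℕ) := MvPolynomial (Fin n ⊕ Fin n) ℂ

/-- `Q (1 + c s₀)^κ` -/
def Psi {n : ℕ} (s₀ : R n) (c κ : ℂ) (Q : R n) (z : Fin n ⊕ Fin n → ℂ) : ℂ :=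
  eval z Q * (1 + c * eval z s₀) ^ κ

/-- the derivative in the coordinate `i`, in the same form with exponent `κ - 1` -/
def dS {n : ℕ} (s₀ : R n) (c κ : ℂ) (i : Fin n ⊕ Fin n) (Q : R n) : R n :=
  (1 + C c * s₀) * pderiv i Q + C (κ * c) * (Q * pderiv i s₀)

lemma hasDerivAt_Psi {n : ℕ} {𝕜 : Type*} [NontriviallyNormedField 𝕜] [NormedAlgebra 𝕜 ℂ]
    (s₀ : R n) (c : 𝕜 → ℂ) (c' κ : ℂ) (Q : R n) (z : 𝕜 → Fin n ⊕ Fin n → ℂ)
    (z' : Fin n ⊕ Fin n → ℂ) (t : 𝕜) (hz : ∀ i, HasDerivAt (fun t => z t i) (z' i) t)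
    (hc : HasDerivAt c c' t) (hE : 1 + c t * eval (z t) s₀ ∈ Complex.slitPlane) :
    HasDerivAt (fun t => Psi s₀ (c t) κ Q (z t))
      (∑ i, Psi s₀ (c t) (κ - 1) (dS s₀ (c t) κ i Q) (z t) * z' i
        + c' * κ * Psi s₀ (c t) (κ - 1) (s₀ * Q) (z t)) t := by
  have h1 := hasDerivAt_eval Q z z' t hz
  have h2 := hasDerivAt_eval s₀ z z' t hz
  have h3 : HasDerivAt (fun t => 1 + c t * eval (z t) s₀)
      (c' * eval (z t) s₀ + c t * ∑ i, eval (z t) (pderiv i s₀) * z' i) t := by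
    exact (hc.fun_mul h2).const_add 1
  have h4 : HasDerivAt (fun t => (1 + c t * eval (z t) s₀) ^ κ)
      ((κ * (1 + c t * eval (z t) s₀) ^ (κ - 1)) *
        (c' * eval (z t) s₀ + c t * ∑ i, eval (z t) (pderiv i s₀) * z' i)) t :=
    HasDerivAt.comp (h₂ := fun x : ℂ => x ^ κ) t
      (Complex.hasStrictDerivAt_cpow_const (c := κ) hE).hasDerivAt h3
  have h5 := h1.fun_mul h4
  unfold Psi
  refine h5.congr_deriv ?_
  have hne : 1 + c t * eval (z t) s₀ ≠ 0 := Complex.slitPlane_ne_zero hE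
  have h6 : (1 + c t * eval (z t) s₀) ^ κ
      = (1 + c t * eval (z t) s₀) * (1 + c t * eval (z t) s₀) ^ (κ - 1) := by
    rw [Complex.cpow_sub _ _ hne, Complex.cpow_one]
    field_simp
  rw [h6]
  simp only [dS, map_add, map_mul, map_one, eval_C, Finset.sum_mul, Finset.mul_sum]
  set E := 1 + c t * eval (z t) s₀
  rw [mul_add, mul_add, Finset.mul_sum, Finset.mul_sum, ← add_assoc, add_right_comm,
    ← Finset.sum_add_distrib]
  congr 1
  · refine Finset.sum_congr rfl fun i _ => ?_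
    ring
  · ring

/-! ### growth of polynomials -/

lemma eval_bound {σ : Type*} [Fintype σ] (P : MvPolynomial σ ℂ) (D : ℕ) (hD : P.totalDegree ≤ D) :
    ∃ A : ℝ, 0 ≤ A ∧ ∀ (z : σ → ℂ) (B : ℝ), 1 ≤ B → (∀ i, ‖z i‖ ≤ B) → ‖eval z P‖ ≤ A * B ^ D := by
  refine ⟨∑ m ∈ P.support, ‖coeff m P‖, Finset.sum_nonneg fun _ _ => norm_nonneg _, ?_⟩
  intro z B hB hz
  rw [eval_eq', Finset.sum_mul]
  refine (norm_sum_le _ _).trans (Finset.sum_le_sum fun m hm => ?_)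
  rw [norm_mul, norm_prod]
  refine mul_le_mul_of_nonneg_left ?_ (norm_nonneg _)
  calc ∏ i, ‖z i ^ m i‖ ≤ ∏ i, B ^ m i := by
        refine Finset.prod_le_prod (fun _ _ => norm_nonneg _) fun i _ => ?_
        rw [norm_pow]
        exact pow_le_pow_left₀ (norm_nonneg _) (hz i) _
    _ = B ^ (∑ i, m i) := by rw [Finset.prod_pow_eq_pow_sum]
    _ ≤ B ^ D := by
        refine pow_le_pow_right₀ hB (le_trans ?_ hD)
        have := le_totalDegree hm
        rwa [Finsupp.sum_fintype _ _ (fun _ => rfl)] at this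

/-! ### the point `z = cosh τ x + i sinh τ y` -/

/-- `(z, z̄)` with `z = cosh τ x + i sinh τ y` -/
def Z {n : ℕ} (τ : ℝ) (w : W n) : Fin n ⊕ Fin n → ℂ :=
  Sum.elim (fun j => (Real.cosh τ : ℂ) * w.1 j + Complex.I * ((Real.sinh τ : ℂ) * w.2 j))
    (fun j => (Real.cosh τ : ℂ) * w.1 j - Complex.I * ((Real.sinh τ : ℂ) * w.2 j))

/-- its derivative in `τ` -/
def Z' {n : ℕ} (τ : ℝ) (w : W n) : Fin n ⊕ Fin n → ℂ :=
  Sum.elim (fun j => (Real.sinh τ : ℂ) * w.1 j + Complex.I * ((Real.cosh τ : ℂ) * w.2 j))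
    (fun j => (Real.sinh τ : ℂ) * w.1 j - Complex.I * ((Real.cosh τ : ℂ) * w.2 j))

lemma abs_sinh_le_cosh (τ : ℝ) : |Real.sinh τ| ≤ Real.cosh τ := by
  rw [← abs_of_pos (Real.cosh_pos τ)]
  refine sq_le_sq.1 ?_
  have := Real.cosh_sq τ
  nlinarith

lemma norm_aux (a b u v N : ℝ) (K : ℝ) (ha : |a| ≤ K) (hb : |b| ≤ K) (hu : |u| ≤ N) (hv : |v| ≤ N)
    (_hN : 0 ≤ N) :
    ‖(a : ℂ) * u + Complex.I * ((b : ℂ) * v)‖ ≤ 2 * K * (1 + N) ∧
      ‖(a : ℂ) * u - Complex.I * ((b : ℂ) * v)‖ ≤ 2 * K * (1 + N) := by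
  have hK : 0 ≤ K := (abs_nonneg a).trans ha
  have h1 : ‖(a : ℂ) * u‖ ≤ K * N := by
    rw [norm_mul, Complex.norm_real, Complex.norm_real, Real.norm_eq_abs, Real.norm_eq_abs]
    exact mul_le_mul ha hu (abs_nonneg _) hK
  have h2 : ‖Complex.I * ((b : ℂ) * v)‖ ≤ K * N := by
    rw [norm_mul, Complex.norm_I, one_mul, norm_mul, Complex.norm_real, Complex.norm_real,
      Real.norm_eq_abs, Real.norm_eq_abs]
    exact mul_le_mul hb hv (abs_nonneg _) hK
  constructor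
  · refine (norm_add_le _ _).trans ?_
    nlinarith
  · refine (norm_sub_le _ _).trans ?_
    nlinarith

lemma abs_fst_le {n : ℕ} (w : W n) (j : Fin n) : |w.1 j| ≤ ‖w‖ :=
  (norm_le_pi_norm w.1 j).trans (norm_fst_le w)

lemma abs_snd_le {n : ℕ} (w : W n) (j : Fin n) : |w.2 j| ≤ ‖w‖ :=
  (norm_le_pi_norm w.2 j).trans (norm_snd_le w)

lemma norm_Z_le {n : ℕ} (τ : ℝ) (w : W n) (i : Fin n ⊕ Fin n) :
    ‖Z τ w i‖ ≤ 2 * Real.cosh τ * (1 + ‖w‖) := by
  have hc : |Real.cosh τ| ≤ Real.cosh τ := by rw [abs_of_pos (Real.cosh_pos τ)]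
  rcases i with j | j
  · exact (norm_aux _ _ _ _ _ _ hc (abs_sinh_le_cosh τ) (abs_fst_le w j) (abs_snd_le w j)
      (norm_nonneg _)).1
  · exact (norm_aux _ _ _ _ _ _ hc (abs_sinh_le_cosh τ) (abs_fst_le w j) (abs_snd_le w j)
      (norm_nonneg _)).2

lemma norm_Z'_le {n : ℕ} (τ : ℝ) (w : W n) (i : Fin n ⊕ Fin n) :
    ‖Z' τ w i‖ ≤ 2 * Real.cosh τ * (1 + ‖w‖) := by
  have hc : |Real.cosh τ| ≤ Real.cosh τ := by rw [abs_of_pos (Real.cosh_pos τ)]
  rcases i with j | j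
  · exact (norm_aux _ _ _ _ _ _ (abs_sinh_le_cosh τ) hc (abs_fst_le w j) (abs_snd_le w j)
      (norm_nonneg _)).1
  · exact (norm_aux _ _ _ _ _ _ (abs_sinh_le_cosh τ) hc (abs_fst_le w j) (abs_snd_le w j)
      (norm_nonneg _)).2

lemma one_le_B {n : ℕ} (τ : ℝ) (w : W n) : 1 ≤ 2 * Real.cosh τ * (1 + ‖w‖) := by
  have := Real.one_le_cosh τ
  have := norm_nonneg w
  nlinarith

lemma hasDerivAt_Z {n : ℕ} (τ : ℝ) (w : W n) (i : Fin n ⊕ Fin n) :
    HasDerivAt (fun τ => Z τ w i) (Z' τ w i) τ := by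
  have h1 : HasDerivAt (fun τ => (Real.cosh τ : ℂ)) (Real.sinh τ : ℂ) τ :=
    (Real.hasDerivAt_cosh τ).ofReal_comp
  have h2 : HasDerivAt (fun τ => (Real.sinh τ : ℂ)) (Real.cosh τ : ℂ) τ :=
    (Real.hasDerivAt_sinh τ).ofReal_comp
  rcases i with j | j
  · exact (h1.mul_const _).add ((h2.mul_const _).const_mul _)
  · exact (h1.mul_const _).sub ((h2.mul_const _).const_mul _)

lemma continuous_Z {n : ℕ} (τ : ℝ) (i : Fin n ⊕ Fin n) : Continuous (fun w : W n => Z τ w i) := by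
  rcases i with j | j
  · simp only [Z, Sum.elim_inl]; fun_prop
  · simp only [Z, Sum.elim_inr]; fun_prop

lemma continuous_Z' {n : ℕ} (τ : ℝ) (i : Fin n ⊕ Fin n) : Continuous (fun w : W n => Z' τ w i) := by
  rcases i with j | j
  · simp only [Z', Sum.elim_inl]; fun_prop
  · simp only [Z', Sum.elim_inr]; fun_prop

lemma continuous_evalZ {n : ℕ} (τ : ℝ) (Q : R n) : Continuous (fun w : W n => eval (Z τ w) Q) := by
  have : Continuous (fun w : W n => Z τ w) := continuous_pi fun i => continuous_Z τ i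
  exact (MvPolynomial.continuous_eval Q).comp this

/-- `s₀` takes nonnegative real values -/
def Nonneg {n : ℕ} (s₀ : R n) : Prop := ∀ (τ : ℝ) (w : W n), ∃ r : ℝ, 0 ≤ r ∧ eval (Z τ w) s₀ = r

lemma mem_slit {n : ℕ} {s₀ : R n} (hs : Nonneg s₀) {c : ℝ} (hc : 0 ≤ c) (τ : ℝ) (w : W n) :
    1 + (c : ℂ) * eval (Z τ w) s₀ ∈ Complex.slitPlane := by
  obtain ⟨r, hr, h⟩ := hs τ w
  rw [h]
  have : 1 + (c : ℂ) * r = ((1 + c * r : ℝ) : ℂ) := by push_cast; ring
  rw [this, Complex.ofReal_mem_slitPlane]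
  positivity

lemma continuous_Psi {n : ℕ} {s₀ : R n} (hs : Nonneg s₀) {c : ℝ} (hc : 0 ≤ c) (κ : ℂ) (Q : R n)
    (τ : ℝ) : Continuous (fun w : W n => Psi s₀ c κ Q (Z τ w)) := by
  unfold Psi
  refine (continuous_evalZ τ Q).mul ?_
  refine Continuous.cpow ?_ continuous_const (fun w => mem_slit hs hc τ w)
  exact continuous_const.add (continuous_const.mul (continuous_evalZ τ s₀))

lemma Psi_bound {n : ℕ} {s₀ : R n} (hs : Nonneg s₀) (κ : ℂ) (Q : R n) :
    ∃ (A : ℝ) (K : ℕ), 0 ≤ A ∧ ∀ c : ℝ, 0 ≤ c → c ≤ 1 → ∀ τ w,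
      ‖Psi s₀ c κ Q (Z τ w)‖ ≤ A * (2 * Real.cosh τ * (1 + ‖w‖)) ^ K := by
  obtain ⟨A1, hA1, h1⟩ := eval_bound Q _ le_rfl
  obtain ⟨A2, hA2, h2⟩ := eval_bound s₀ _ le_rfl
  set m := ⌈|κ.re|⌉₊
  refine ⟨A1 * (1 + A2) ^ m, Q.totalDegree + s₀.totalDegree * m, by positivity, ?_⟩
  intro c hc0 hc1 τ w
  obtain ⟨r, hr, h⟩ := hs τ w
  have hB := one_le_B τ w
  set B := 2 * Real.cosh τ * (1 + ‖w‖)
  have e1 := h1 (Z τ w) B hB (norm_Z_le τ w)
  have e2 := h2 (Z τ w) B hB (norm_Z_le τ w)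
  rw [h, Complex.norm_real, Real.norm_of_nonneg hr] at e2
  unfold Psi
  rw [norm_mul, h]
  have h3 : 1 + (c : ℂ) * r = ((1 + c * r : ℝ) : ℂ) := by push_cast; ring
  have h4 : (1 : ℝ) ≤ 1 + c * r := by nlinarith [mul_nonneg hc0 hr]
  have h5 : ‖(1 + (c : ℂ) * r) ^ κ‖ ≤ (1 + c * r) ^ m := by
    rw [h3, Complex.norm_cpow_eq_rpow_re_of_pos (by linarith), ← Real.rpow_natCast]
    refine Real.rpow_le_rpow_of_exponent_le h4 ?_
    exact (le_abs_self _).trans (Nat.le_ceil _)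
  have hBD : 1 ≤ B ^ s₀.totalDegree := one_le_pow₀ hB
  have h6 : 1 + c * r ≤ (1 + A2) * B ^ s₀.totalDegree := by
    have : c * r ≤ r := by nlinarith
    nlinarith
  calc ‖eval (Z τ w) Q‖ * ‖(1 + (c : ℂ) * r) ^ κ‖
      ≤ (A1 * B ^ Q.totalDegree) * ((1 + A2) * B ^ s₀.totalDegree) ^ m := by
        refine mul_le_mul e1 (h5.trans ?_) (norm_nonneg _) (by positivity)
        exact pow_le_pow_left₀ (by linarith) h6 m
    _ = A1 * (1 + A2) ^ m * B ^ (Q.totalDegree + s₀.totalDegree * m) := by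
        rw [mul_pow (1 + A2), ← pow_mul, pow_add]; ring

lemma integrable_of_bound {n : ℕ} (G : W n → ℂ) (hG : Continuous G) (A : ℝ) (K : ℕ)
    (h : ∀ w, ‖G w‖ ≤ A * (1 + ‖w‖) ^ K) : Integrable G (μ n) :=
  ((integrable_pow_W n K).const_mul A).mono' hG.aestronglyMeasurable (Eventually.of_forall h)

lemma integrable_Psi {n : ℕ} {s₀ : R n} (hs : Nonneg s₀) {c : ℝ} (hc : 0 ≤ c) (hc1 : c ≤ 1) (κ : ℂ)
    (Q : R n) (τ : ℝ) : Integrable (fun w : W n => Psi s₀ c κ Q (Z τ w)) (μ n) := by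
  obtain ⟨A, K, hA, h⟩ := Psi_bound hs κ Q
  refine integrable_of_bound _ (continuous_Psi hs hc κ Q τ) (A * (2 * Real.cosh τ) ^ K) K ?_
  intro w
  refine (h c hc hc1 τ w).trans (le_of_eq ?_)
  rw [mul_pow]; ring

lemma integrable_lin_Psi {n : ℕ} {s₀ : R n} (hs : Nonneg s₀) {c : ℝ} (hc : 0 ≤ c) (hc1 : c ≤ 1)
    (κ : ℂ) (Q : R n) (τ : ℝ) (l : W n → ℝ) (hl : Continuous l) (hl2 : ∀ w, |l w| ≤ ‖w‖) :
    Integrable (fun w : W n => (l w : ℂ) * Psi s₀ c κ Q (Z τ w)) (μ n) := by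
  obtain ⟨A, K, hA, h⟩ := Psi_bound hs κ Q
  refine integrable_of_bound _ ((Complex.continuous_ofReal.comp hl).mul (continuous_Psi hs hc κ Q τ))
    (A * (2 * Real.cosh τ) ^ K) (K + 1) ?_
  intro w
  rw [norm_mul, Complex.norm_real, Real.norm_eq_abs]
  calc |l w| * ‖Psi s₀ c κ Q (Z τ w)‖ ≤ (1 + ‖w‖) * (A * (2 * Real.cosh τ * (1 + ‖w‖)) ^ K) := by
        refine mul_le_mul ((hl2 w).trans (by linarith)) (h c hc hc1 τ w) (norm_nonneg _)
          (by positivity)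
    _ = _ := by rw [mul_pow]; ring

/-- Gaussian expectation -/
def J {n : ℕ} (s₀ : R n) (c : ℝ) (κ : ℂ) (Q : R n) (τ : ℝ) : ℂ :=
  ∫ w, Psi s₀ c κ Q (Z τ w) ∂(μ n)

lemma steinX {n : ℕ} {s₀ : R n} (hs : Nonneg s₀) {c : ℝ} (hc : 0 ≤ c) (hc1 : c ≤ 1)
    (κ : ℂ) (Q : R n) (τ : ℝ) (j : Fin n) :
    ∫ w, (w.1 j : ℂ) * Psi s₀ c κ Q (Z τ w) ∂(μ n)
      = Real.cosh τ * (J s₀ c (κ - 1) (dS s₀ c κ (Sum.inl j) Q) τ
        + J s₀ c (κ - 1) (dS s₀ c κ (Sum.inr j) Q) τ) := by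
  classical
  have i1 := integrable_Psi hs hc hc1 (κ - 1) (dS s₀ c κ (Sum.inl j) Q) τ
  have i2 := integrable_Psi hs hc hc1 (κ - 1) (dS s₀ c κ (Sum.inr j) Q) τ
  rw [J, J, ← integral_add i1 i2, ← integral_const_mul]
  refine stein_fst j (fun w => Psi s₀ c κ Q (Z τ w)) _ ?_ (integrable_Psi hs hc hc1 κ Q τ)
    (integrable_lin_Psi hs hc hc1 κ Q τ (fun w => w.1 j) (by fun_prop) (fun w => abs_fst_le w j))
    ((i1.add i2).const_mul _)
  intro x y
  have hz : ∀ i : Fin n ⊕ Fin n, HasDerivAt (fun t : ℝ => Z τ (Function.update x j t, y) i)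
      (Sum.elim (fun i => if i = j then (Real.cosh τ : ℂ) else 0)
        (fun i => if i = j then (Real.cosh τ : ℂ) else 0) i) (x j) := by
    intro i
    have hu : ∀ i : Fin n, HasDerivAt (fun t : ℝ => ((Function.update x j t i : ℝ) : ℂ))
        (if i = j then 1 else 0) (x j) := by
      intro i
      by_cases h : i = j
      · subst h
        simpa using (hasDerivAt_id (x i)).ofReal_comp
      · simp only [Function.update_of_ne h, h, if_false]
        exact hasDerivAt_const _ _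
    rcases i with i | i
    · have := ((hu i).const_mul (Real.cosh τ : ℂ)).add_const
        (Complex.I * ((Real.sinh τ : ℂ) * y i))
      simpa [Z, mul_ite] using this
    · have := ((hu i).const_mul (Real.cosh τ : ℂ)).sub_const
        (Complex.I * ((Real.sinh τ : ℂ) * y i))
      simpa [Z, mul_ite] using this
  have hE : 1 + (c : ℂ) * eval (Z τ (Function.update x j (x j), y)) s₀ ∈ Complex.slitPlane :=
    mem_slit hs hc τ _
  have := hasDerivAt_Psi s₀ (fun _ : ℝ => (c : ℂ)) 0 κ Q _ _ (x j) hz (hasDerivAt_const _ _) hE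
  refine this.congr_deriv ?_
  simp [Fintype.sum_sum_type, Function.update_eq_self]
  ring

lemma steinY {n : ℕ} {s₀ : R n} (hs : Nonneg s₀) {c : ℝ} (hc : 0 ≤ c) (hc1 : c ≤ 1)
    (κ : ℂ) (Q : R n) (τ : ℝ) (j : Fin n) :
    ∫ w, (w.2 j : ℂ) * Psi s₀ c κ Q (Z τ w) ∂(μ n)
      = Complex.I * Real.sinh τ * (J s₀ c (κ - 1) (dS s₀ c κ (Sum.inl j) Q) τ
        - J s₀ c (κ - 1) (dS s₀ c κ (Sum.inr j) Q) τ) := by
  classical
  have i1 := integrable_Psi hs hc hc1 (κ - 1) (dS s₀ c κ (Sum.inl j) Q) τ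
  have i2 := integrable_Psi hs hc hc1 (κ - 1) (dS s₀ c κ (Sum.inr j) Q) τ
  rw [J, J, ← integral_sub i1 i2, ← integral_const_mul]
  refine stein_snd j (fun w => Psi s₀ c κ Q (Z τ w)) _ ?_ (integrable_Psi hs hc hc1 κ Q τ)
    (integrable_lin_Psi hs hc hc1 κ Q τ (fun w => w.2 j) (by fun_prop) (fun w => abs_snd_le w j))
    ((i1.sub i2).const_mul _)
  intro x y
  have hz : ∀ i : Fin n ⊕ Fin n, HasDerivAt (fun t : ℝ => Z τ (x, Function.update y j t) i)
      (Sum.elim (fun i => if i = j then (Complex.I * (Real.sinh τ : ℂ)) else 0)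
        (fun i => if i = j then -(Complex.I * (Real.sinh τ : ℂ)) else 0) i) (y j) := by
    intro i
    have hu : ∀ i : Fin n, HasDerivAt (fun t : ℝ => ((Function.update y j t i : ℝ) : ℂ))
        (if i = j then 1 else 0) (y j) := by
      intro i
      by_cases h : i = j
      · subst h
        simpa using (hasDerivAt_id (y i)).ofReal_comp
      · simp only [Function.update_of_ne h, h, if_false]
        exact hasDerivAt_const _ _
    rcases i with i | i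
    · have := (((hu i).const_mul (Real.sinh τ : ℂ)).const_mul Complex.I).const_add
        ((Real.cosh τ : ℂ) * x i)
      simpa [Z, mul_ite] using this
    · have := (((hu i).const_mul (Real.sinh τ : ℂ)).const_mul Complex.I).const_sub
        ((Real.cosh τ : ℂ) * x i)
      refine (this.congr_deriv ?_)
      simp only [Sum.elim_inr]
      split_ifs <;> simp
  have hE : 1 + (c : ℂ) * eval (Z τ (x, Function.update y j (y j))) s₀ ∈ Complex.slitPlane :=
    mem_slit hs hc τ _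
  have := hasDerivAt_Psi s₀ (fun _ : ℝ => (c : ℂ)) 0 κ Q _ _ (y j) hz (hasDerivAt_const _ _) hE
  refine this.congr_deriv ?_
  simp [Fintype.sum_sum_type, Function.update_eq_self]
  ring

end

end Pool.Agent.Helper228.GH
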