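import Pool.Agent.Helper228.GH.Key4

/-! From the key inequality to the Bernstein–Markov inequality, by the Cauchy estimate. -/

open MeasureTheory ProbabilityTheory Filter MvPolynomial
open scoped ENNReal Topology ComplexConjugate

namespace Pool.Agent.Helper228.GH

noncomputable section

/-! ### polynomial bounds, complex parameter -/

def Bz {n : ℕ} (ζ : ℂ) (w : W n) : ℝ := 2 * Real.exp ‖ζ‖ * (1 + ‖w‖)

lemma one_le_Bz {n : ℕ} (ζ : ℂ) (w : W n) : 1 ≤ Bz ζ w := by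
  unfold Bz
  have h1 : 1 ≤ Real.exp ‖ζ‖ := Real.one_le_exp (norm_nonneg _)
  have h2 := norm_nonneg w
  nlinarith

def PZ {n : ℕ} (G : ℂ → W n → ℂ) : Prop :=
  ∃ (A : ℝ) (K : ℕ), 0 ≤ A ∧ ∀ ζ w, ‖G ζ w‖ ≤ A * Bz ζ w ^ K

lemma PZ.add {n : ℕ} {G H : ℂ → W n → ℂ} (hG : PZ G) (hH : PZ H) :
    PZ (fun τ w => G τ w + H τ w) := by
  obtain ⟨A, K, hA, h⟩ := hG
  obtain ⟨A', K', hA', h'⟩ := hH
  refine ⟨A + A', K + K', by positivity, fun τ w => ?_⟩
  have hB := one_le_Bz τ w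
  have h1 : Bz τ w ^ K ≤ Bz τ w ^ (K + K') := pow_le_pow_right₀ hB (by omega)
  have h2 : Bz τ w ^ K' ≤ Bz τ w ^ (K + K') := pow_le_pow_right₀ hB (by omega)
  refine (norm_add_le _ _).trans ((add_le_add (h τ w) (h' τ w)).trans ?_)
  rw [add_mul]
  exact add_le_add (mul_le_mul_of_nonneg_left h1 hA) (mul_le_mul_of_nonneg_left h2 hA')

lemma PZ.mul {n : ℕ} {G H : ℂ → W n → ℂ} (hG : PZ G) (hH : PZ H) :
    PZ (fun τ w => G τ w * H τ w) := by
  obtain ⟨A, K, hA, h⟩ := hG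
  obtain ⟨A', K', hA', h'⟩ := hH
  refine ⟨A * A', K + K', by positivity, fun τ w => ?_⟩
  have hB := one_le_Bz τ w
  rw [norm_mul]
  refine (mul_le_mul (h τ w) (h' τ w) (norm_nonneg _) (by positivity)).trans (le_of_eq ?_)
  rw [pow_add]; ring

lemma PZ.sum {n : ℕ} {ι : Type*} (s : Finset ι) {G : ι → ℂ → W n → ℂ} (hG : ∀ i ∈ s, PZ (G i)) :
    PZ (fun τ w => ∑ i ∈ s, G i τ w) := by
  classical
  induction s using Finset.induction_on with
  | empty => exact ⟨0, 0, le_rfl, by simp⟩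
  | insert a s ha ih =>
    simp only [Finset.sum_insert ha]
    exact (hG a (Finset.mem_insert_self a s)).add
      (ih fun i hi => hG i (Finset.mem_insert_of_mem hi))

lemma norm_cos_le (ζ : ℂ) : ‖Complex.cos ζ‖ ≤ Real.exp ‖ζ‖ := by
  rw [Complex.cos, norm_div]
  have h1 := Complex.norm_exp_le_exp_norm (ζ * Complex.I)
  have h2 := Complex.norm_exp_le_exp_norm (-ζ * Complex.I)
  rw [norm_mul, Complex.norm_I, mul_one] at h1 h2
  rw [norm_neg] at h2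
  have h3 := norm_add_le (Complex.exp (ζ * Complex.I)) (Complex.exp (-ζ * Complex.I))
  have h4 : ‖(2:ℂ)‖ = 2 := by simp
  rw [h4, div_le_iff₀ (by norm_num)]
  linarith

lemma norm_sin_le (ζ : ℂ) : ‖Complex.sin ζ‖ ≤ Real.exp ‖ζ‖ := by
  rw [Complex.sin, norm_div, norm_mul, Complex.norm_I, mul_one]
  have h1 := Complex.norm_exp_le_exp_norm (ζ * Complex.I)
  have h2 := Complex.norm_exp_le_exp_norm (-ζ * Complex.I)
  rw [norm_mul, Complex.norm_I, mul_one] at h1 h2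
  rw [norm_neg] at h2
  have h3 := norm_sub_le (Complex.exp (-ζ * Complex.I)) (Complex.exp (ζ * Complex.I))
  have h4 : ‖(2:ℂ)‖ = 2 := by simp
  rw [h4, div_le_iff₀ (by norm_num)]
  linarith

/-- derivative of `zz` in `ζ` -/
def zz' {n : ℕ} (ζ : ℂ) (w : W n) (j : Fin n) : ℂ :=
  -Complex.sin ζ * w.1 j + Complex.cos ζ * w.2 j

lemma norm_lin_le {n : ℕ} (ζ : ℂ) (w : W n) (j : Fin n) (a b : ℂ) (ha : ‖a‖ ≤ Real.exp ‖ζ‖)
    (hb : ‖b‖ ≤ Real.exp ‖ζ‖) : ‖a * (w.1 j : ℂ) + b * (w.2 j : ℂ)‖ ≤ Bz ζ w := by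
  refine (norm_add_le _ _).trans ?_
  rw [norm_mul, norm_mul, Complex.norm_real, Complex.norm_real, Real.norm_eq_abs, Real.norm_eq_abs]
  have h1 := mul_le_mul ha (abs_fst_le w j) (abs_nonneg _) (Real.exp_pos _).le
  have h2 := mul_le_mul hb (abs_snd_le w j) (abs_nonneg _) (Real.exp_pos _).le
  unfold Bz
  have h3 := Real.exp_pos ‖ζ‖
  nlinarith

lemma norm_zz_le {n : ℕ} (ζ : ℂ) (w : W n) (j : Fin n) : ‖zz ζ w j‖ ≤ Bz ζ w :=
  norm_lin_le ζ w j _ _ (norm_cos_le ζ) (norm_sin_le ζ)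

lemma norm_zz'_le {n : ℕ} (ζ : ℂ) (w : W n) (j : Fin n) : ‖zz' ζ w j‖ ≤ Bz ζ w :=
  norm_lin_le ζ w j _ _ (by rw [norm_neg]; exact norm_sin_le ζ) (norm_cos_le ζ)

lemma PZ_zz {n : ℕ} (j : Fin n) : PZ (fun ζ w => zz ζ w j) :=
  ⟨1, 1, by norm_num, fun ζ w => by simpa using norm_zz_le ζ w j⟩

lemma PZ_zz' {n : ℕ} (j : Fin n) : PZ (fun ζ w => zz' ζ w j) :=
  ⟨1, 1, by norm_num, fun ζ w => by simpa using norm_zz'_le ζ w j⟩

lemma PZ_eval {n : ℕ} (P : MvPolynomial (Fin n) ℂ) : PZ (fun ζ (w : W n) => eval (zz ζ w) P) := by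
  obtain ⟨A, hA, h⟩ := eval_bound P _ le_rfl
  exact ⟨A, _, hA, fun ζ w => h _ _ (one_le_Bz ζ w) (norm_zz_le ζ w)⟩

lemma PZ_g {n : ℕ} (g : (Fin n → ℝ) → ℝ) (A : ℝ) (K : ℕ) (hA : 0 ≤ A)
    (hg : ∀ x, |g x| ≤ A * (1 + ‖x‖) ^ K) : PZ (fun (_ : ℂ) (w : W n) => (g w.1 : ℂ)) := by
  refine ⟨A, K, hA, fun ζ w => ?_⟩
  rw [Complex.norm_real, Real.norm_eq_abs]
  refine (hg w.1).trans (mul_le_mul_of_nonneg_left ?_ hA)
  refine pow_le_pow_left₀ (by positivity) ?_ K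
  unfold Bz
  have h1 : 1 ≤ Real.exp ‖ζ‖ := Real.one_le_exp (norm_nonneg _)
  have h2 := norm_nonneg w
  have h3 : ‖w.1‖ ≤ ‖w‖ := norm_fst_le w
  nlinarith

lemma hasDerivAt_zz {n : ℕ} (ζ : ℂ) (w : W n) (j : Fin n) :
    HasDerivAt (fun ζ => zz ζ w j) (zz' ζ w j) ζ :=
  ((Complex.hasDerivAt_cos ζ).mul_const _).add ((Complex.hasDerivAt_sin ζ).mul_const _)

lemma hasDerivAt_zz' {n : ℕ} (ζ : ℂ) (w : W n) (j : Fin n) :
    HasDerivAt (fun ζ => zz' ζ w j) (-zz ζ w j) ζ := by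
  have := ((Complex.hasDerivAt_sin ζ).neg.mul_const (w.1 j : ℂ)).add
    ((Complex.hasDerivAt_cos ζ).mul_const (w.2 j : ℂ))
  refine this.congr_deriv ?_
  unfold zz; ring

lemma continuous_zz {n : ℕ} (ζ : ℂ) (j : Fin n) : Continuous (fun w : W n => zz ζ w j) := by
  unfold zz; fun_prop

lemma continuous_zz' {n : ℕ} (ζ : ℂ) (j : Fin n) : Continuous (fun w : W n => zz' ζ w j) := by
  unfold zz'; fun_prop

lemma continuous_evalzz {n : ℕ} (ζ : ℂ) (P : MvPolynomial (Fin n) ℂ) :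
    Continuous (fun w : W n => eval (zz ζ w) P) :=
  (MvPolynomial.continuous_eval P).comp (continuous_pi fun i => continuous_zz ζ i)

lemma PZ.integrable {n : ℕ} {G : ℂ → W n → ℂ} (hG : PZ G) (ζ : ℂ) (hc : Continuous (G ζ)) :
    Integrable (G ζ) (μ n) := by
  obtain ⟨A, K, hA, h⟩ := hG
  refine integrable_of_bound _ hc (A * (2 * Real.exp ‖ζ‖) ^ K) K fun w => ?_
  refine (h ζ w).trans (le_of_eq ?_)
  rw [Bz, mul_pow (2 * Real.exp ‖ζ‖)]; ring

lemma PZ.hasDerivAt {n : ℕ} {G G' : ℂ → W n → ℂ} (hG : PZ G) (hG' : PZ G')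
    (hc : ∀ ζ, Continuous (G ζ)) (hc' : ∀ ζ, Continuous (G' ζ))
    (hd : ∀ ζ w, HasDerivAt (fun ζ => G ζ w) (G' ζ w) ζ) (ζ : ℂ) :
    HasDerivAt (fun ζ => ∫ w, G ζ w ∂(μ n)) (∫ w, G' ζ w ∂(μ n)) ζ := by
  obtain ⟨A, K, hA, h⟩ := hG'
  refine hasDerivAt_int (𝕜 := ℂ) G G' ζ hd hc (hc' ζ) (hG.integrable ζ (hc ζ))
    (A * (2 * Real.exp (‖ζ‖ + 1)) ^ K) K ?_
  intro t ht w
  refine (h t w).trans ?_
  rw [mul_assoc A, ← mul_pow]
  refine mul_le_mul_of_nonneg_left ?_ hA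
  have hc : Real.exp ‖t‖ ≤ Real.exp (‖ζ‖ + 1) := by
    refine Real.exp_le_exp.2 ?_
    rw [Metric.mem_ball, dist_eq_norm] at ht
    have := norm_sub_norm_le t ζ
    linarith
  unfold Bz
  gcongr

/-! ### the entire function -/

section phi

variable {n : ℕ} (P : MvPolynomial (Fin n) ℂ) (g : (Fin n → ℝ) → ℝ)

def G0 (ζ : ℂ) (w : W n) : ℂ := eval (zz ζ w) P * g w.1

def G1 (ζ : ℂ) (w : W n) : ℂ := (∑ j, eval (zz ζ w) (pderiv j P) * zz' ζ w j) * g w.1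

def G2 (ζ : ℂ) (w : W n) : ℂ :=
  (∑ j, ((∑ k, eval (zz ζ w) (pderiv k (pderiv j P)) * zz' ζ w k) * zz' ζ w j
    + eval (zz ζ w) (pderiv j P) * (-zz ζ w j))) * g w.1

lemma hasDerivAt_G0 (ζ : ℂ) (w : W n) : HasDerivAt (fun ζ => G0 P g ζ w) (G1 P g ζ w) ζ :=
  (hasDerivAt_eval P (fun ζ => zz ζ w) (zz' ζ w) ζ (fun j => hasDerivAt_zz ζ w j)).mul_const _

lemma hasDerivAt_G1 (ζ : ℂ) (w : W n) : HasDerivAt (fun ζ => G1 P g ζ w) (G2 P g ζ w) ζ := by
  refine HasDerivAt.mul_const ?_ _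
  refine HasDerivAt.fun_sum fun j _ => ?_
  exact (hasDerivAt_eval (pderiv j P) (fun ζ => zz ζ w) (zz' ζ w) ζ
    (fun j => hasDerivAt_zz ζ w j)).fun_mul (hasDerivAt_zz' ζ w j)

variable {g} (hg : Continuous g) (A : ℝ) (K : ℕ) (hA : 0 ≤ A)
    (hgb : ∀ x, |g x| ≤ A * (1 + ‖x‖) ^ K)

include hg in
lemma continuous_g : Continuous (fun w : W n => (g w.1 : ℂ)) :=
  Complex.continuous_ofReal.comp (hg.comp continuous_fst)

include hg in
lemma continuous_G0 (ζ : ℂ) : Continuous (G0 P g ζ) :=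
  (continuous_evalzz ζ P).mul (continuous_g hg)

include hg in
lemma continuous_G1 (ζ : ℂ) : Continuous (G1 P g ζ) := by
  refine (continuous_finsetSum _ fun j _ => ?_).mul (continuous_g hg)
  exact (continuous_evalzz ζ _).mul (continuous_zz' ζ j)

include hg in
lemma continuous_G2 (ζ : ℂ) : Continuous (G2 P g ζ) := by
  refine (continuous_finsetSum _ fun j _ => ?_).mul (continuous_g hg)
  refine ((continuous_finsetSum _ fun k _ => ?_).mul (continuous_zz' ζ j)).add ?_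
  · exact (continuous_evalzz ζ _).mul (continuous_zz' ζ k)
  · exact (continuous_evalzz ζ _).mul (continuous_zz ζ j).neg

include hA hgb

lemma PZ_G0 : PZ (G0 P g) := (PZ_eval P).mul (PZ_g g A K hA hgb)

lemma PZ_G1 : PZ (G1 P g) :=
  (PZ.sum _ fun j _ => (PZ_eval _).mul (PZ_zz' j)).mul (PZ_g g A K hA hgb)

lemma PZ_neg_zz (j : Fin n) : PZ (fun ζ (w : W n) => -zz ζ w j) := by
  have _ := hA
  have _ := hgb
  exact ⟨1, 1, by norm_num, fun ζ w => by simpa using norm_zz_le ζ w j⟩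

lemma PZ_G2 : PZ (G2 P g) :=
  (PZ.sum _ fun j _ => ((PZ.sum _ fun k _ => (PZ_eval _).mul (PZ_zz' k)).mul (PZ_zz' j)).add
    ((PZ_eval _).mul (PZ_neg_zz A K hA hgb j))).mul (PZ_g g A K hA hgb)

include hg

lemma iter2 : Differentiable ℂ (fun ζ => ∫ w, G0 P g ζ w ∂(μ n)) ∧
    iteratedDeriv 2 (fun ζ => ∫ w, G0 P g ζ w ∂(μ n)) 0 = ∫ w, G2 P g 0 w ∂(μ n) := by
  have h1 : ∀ ζ, HasDerivAt (fun ζ => ∫ w, G0 P g ζ w ∂(μ n)) (∫ w, G1 P g ζ w ∂(μ n)) ζ :=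
    PZ.hasDerivAt (PZ_G0 P A K hA hgb) (PZ_G1 P A K hA hgb) (continuous_G0 P hg)
      (continuous_G1 P hg) (hasDerivAt_G0 P g)
  have h2 : ∀ ζ, HasDerivAt (fun ζ => ∫ w, G1 P g ζ w ∂(μ n)) (∫ w, G2 P g ζ w ∂(μ n)) ζ :=
    PZ.hasDerivAt (PZ_G1 P A K hA hgb) (PZ_G2 P A K hA hgb) (continuous_G1 P hg)
      (continuous_G2 P hg) (hasDerivAt_G1 P g)
  refine ⟨fun ζ => (h1 ζ).differentiableAt, ?_⟩
  rw [iteratedDeriv_succ, iteratedDeriv_one]
  have h3 : deriv (fun ζ => ∫ w, G0 P g ζ w ∂(μ n)) = fun ζ => ∫ w, G1 P g ζ w ∂(μ n) :=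
    funext fun ζ => (h1 ζ).deriv
  rw [h3, (h2 0).deriv]

end phi

/-- `N f = Δ f - x · ∇ f` -/
def nf {n : ℕ} (f : MvPolynomial (Fin n) ℝ) : MvPolynomial (Fin n) ℝ := lf f - xf f

lemma eval_ofReal {n : ℕ} (f : MvPolynomial (Fin n) ℝ) (x : Fin n → ℝ) :
    eval (fun j => (x j : ℂ)) (fC f) = ((eval x f : ℝ) : ℂ) := by
  induction f using MvPolynomial.induction_on with
  | C a => simp
  | add p q hp hq => simp [hp, hq]
  | mul_X p i hp => simp [hp]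

lemma zz_zero {n : ℕ} (w : W n) : zz 0 w = fun j => (w.1 j : ℂ) := by
  funext j; simp [zz]

lemma zz'_zero {n : ℕ} (w : W n) : zz' 0 w = fun j => (w.2 j : ℂ) := by
  funext j; simp [zz']

lemma poly_growth {n : ℕ} (f : MvPolynomial (Fin n) ℝ) :
    ∃ (A : ℝ) (K : ℕ), 0 ≤ A ∧ ∀ x, |eval x f| ≤ A * (1 + ‖x‖) ^ K := by
  obtain ⟨A, hA, h⟩ := eval_bound (fC f) _ le_rfl
  refine ⟨A, (fC f).totalDegree, hA, fun x => ?_⟩
  have := h (fun j => (x j : ℂ)) (1 + ‖x‖) (by linarith [norm_nonneg x]) (fun j => by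
    rw [Complex.norm_real]
    have := norm_le_pi_norm x j
    linarith)
  rwa [eval_ofReal, Complex.norm_real, Real.norm_eq_abs] at this

lemma integrable_snd_mul {n : ℕ} (a : (Fin n → ℝ) → ℝ) (ha : Continuous a) (A : ℝ) (K : ℕ)
    (hA : 0 ≤ A) (hab : ∀ x, |a x| ≤ A * (1 + ‖x‖) ^ K) (l : W n → ℝ) (hl : Continuous l) (m : ℕ)
    (hl2 : ∀ w, |l w| ≤ (1 + ‖w‖) ^ m) :
    Integrable (fun w : W n => (l w : ℂ) * (a w.1 : ℂ)) (μ n) := by
  refine integrable_of_bound _ ((Complex.continuous_ofReal.comp hl).mul (continuous_g ha)) A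
    (m + K) fun w => ?_
  rw [norm_mul, Complex.norm_real, Complex.norm_real, Real.norm_eq_abs, Real.norm_eq_abs]
  have h1 : |a w.1| ≤ A * (1 + ‖w‖) ^ K := by
    refine (hab w.1).trans (mul_le_mul_of_nonneg_left ?_ hA)
    refine pow_le_pow_left₀ (by positivity) ?_ K
    have : ‖w.1‖ ≤ ‖w‖ := norm_fst_le w
    linarith
  calc |l w| * |a w.1| ≤ (1 + ‖w‖) ^ m * (A * (1 + ‖w‖) ^ K) :=
        mul_le_mul (hl2 w) h1 (abs_nonneg _) (by positivity)
    _ = A * (1 + ‖w‖) ^ (m + K) := by rw [pow_add]; ring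

lemma moment2 {n : ℕ} (a : (Fin n → ℝ) → ℝ) (ha : Continuous a) (A : ℝ) (K : ℕ)
    (hA : 0 ≤ A) (hab : ∀ x, |a x| ≤ A * (1 + ‖x‖) ^ K) (j k : Fin n) :
    ∫ w : W n, (w.2 j : ℂ) * ((w.2 k : ℂ) * (a w.1 : ℂ)) ∂(μ n)
      = if k = j then ∫ w : W n, (a w.1 : ℂ) ∂(μ n) else 0 := by
  classical
  have hn1 : ∀ w : W n, |w.2 k| ≤ (1 + ‖w‖) ^ 1 := fun w => by
    have := abs_snd_le w k; rw [pow_one]; linarith
  have hnj : ∀ w : W n, |w.2 j| ≤ (1 + ‖w‖) ^ 1 := fun w => by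
    have := abs_snd_le w j; rw [pow_one]; linarith
  have i1 := integrable_snd_mul a ha A K hA hab (fun w => w.2 k) (by fun_prop) 1 hn1
  have i2 := integrable_snd_mul a ha A K hA hab (fun w => w.2 j * w.2 k) (by fun_prop) 2 (by
    intro w
    rw [abs_mul, pow_two]
    have h1 := hn1 w
    have h2 := hnj w
    rw [pow_one] at h1 h2
    exact mul_le_mul h2 h1 (abs_nonneg _) (by positivity))
  have i3 := integrable_snd_mul a ha A K hA hab (fun _ => if k = j then 1 else 0) (by fun_prop) 0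
    (by intro w; split_ifs <;> simp)
  have := stein_snd j (fun w : W n => (w.2 k : ℂ) * (a w.1 : ℂ))
    (fun w => ((if k = j then (1:ℝ) else 0 : ℝ) : ℂ) * (a w.1 : ℂ)) ?_ i1 ?_ i3
  · rw [this]
    by_cases h : k = j
    · simp [h]
    · simp [h]
  · intro x y
    have hu : HasDerivAt (fun t : ℝ => ((Function.update y j t k : ℝ) : ℂ))
        (((if k = j then (1:ℝ) else 0 : ℝ) : ℂ)) (y j) := by
      by_cases h : k = j
      · subst h
        simpa using (hasDerivAt_id (y k)).ofReal_comp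
      · simp only [Function.update_of_ne h, h, if_false, Complex.ofReal_zero]
        exact hasDerivAt_const _ _
    exact hu.mul_const (a x : ℂ)
  · refine i2.congr (Eventually.of_forall fun w => ?_)
    simp only [Complex.ofReal_mul]; ring

lemma integral_G2 {n : ℕ} (f : MvPolynomial (Fin n) ℝ) (g : (Fin n → ℝ) → ℝ) (hg : Continuous g)
    (A : ℝ) (K : ℕ) (hA : 0 ≤ A) (hgb : ∀ x, |g x| ≤ A * (1 + ‖x‖) ^ K) :
    ∫ w, G2 (fC f) g 0 w ∂(μ n) = ((∫ x, eval x (nf f) * g x ∂(γ n) : ℝ) : ℂ) := by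
  -- growth of products
  have hprod : ∀ h : MvPolynomial (Fin n) ℝ, ∃ (A' : ℝ) (K' : ℕ), 0 ≤ A' ∧
      ∀ x, |eval x h * g x| ≤ A' * (1 + ‖x‖) ^ K' := by
    intro h
    obtain ⟨B, L, hB, hb⟩ := poly_growth h
    refine ⟨B * A, L + K, by positivity, fun x => ?_⟩
    rw [abs_mul]
    refine (mul_le_mul (hb x) (hgb x) (abs_nonneg _) (by positivity)).trans (le_of_eq ?_)
    rw [pow_add]; ring
  have hcont : ∀ h : MvPolynomial (Fin n) ℝ, Continuous (fun x => eval x h * g x) := fun h =>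
    (MvPolynomial.continuous_eval h).mul hg
  have e : ∀ w : W n, G2 (fC f) g 0 w
      = ∑ j, (∑ k, (w.2 j : ℂ) * ((w.2 k : ℂ) *
          ((eval w.1 (pderiv k (pderiv j f)) * g w.1 : ℝ) : ℂ))
        - (w.1 j : ℂ) * ((eval w.1 (pderiv j f) * g w.1 : ℝ) : ℂ)) := by
    intro w
    unfold G2
    rw [zz_zero, zz'_zero, Finset.sum_mul]
    refine Finset.sum_congr rfl fun j _ => ?_
    have h1 : ∀ (k : Fin n) (h : MvPolynomial (Fin n) ℝ), pderiv k (fC h) = fC (pderiv k h) := by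
      intro k h; rw [fC, pderiv_map]
    simp only [h1, eval_ofReal]
    rw [add_mul, Finset.sum_mul, Finset.sum_mul, sub_eq_add_neg]
    congr 1
    · refine Finset.sum_congr rfl fun k _ => ?_
      push_cast; ring
    · push_cast; ring
  have iA : ∀ j k : Fin n, Integrable (fun w : W n => (w.2 j : ℂ) * ((w.2 k : ℂ) *
      ((eval w.1 (pderiv k (pderiv j f)) * g w.1 : ℝ) : ℂ))) (μ n) := by
    intro j k
    obtain ⟨A', K', hA', hb'⟩ := hprod (pderiv k (pderiv j f))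
    have := integrable_snd_mul (fun x => eval x (pderiv k (pderiv j f)) * g x) (hcont _) A' K' hA' hb'
      (fun w => w.2 j * w.2 k) (by fun_prop) 2 (by
        intro w
        rw [abs_mul, pow_two]
        have h1 := abs_snd_le w j
        have h2 := abs_snd_le w k
        exact mul_le_mul (by linarith) (by linarith) (abs_nonneg _) (by positivity))
    refine this.congr (Eventually.of_forall fun w => ?_)
    simp only [Complex.ofReal_mul]; ring
  have iB : ∀ j : Fin n, Integrable (fun w : W n => (w.1 j : ℂ) *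
      ((eval w.1 (pderiv j f) * g w.1 : ℝ) : ℂ)) (μ n) := by
    intro j
    obtain ⟨A', K', hA', hb'⟩ := hprod (pderiv j f)
    exact integrable_snd_mul (fun x => eval x (pderiv j f) * g x) (hcont _) A' K' hA' hb'
      (fun w => w.1 j) (by fun_prop) 1 (by
        intro w
        have h1 := abs_fst_le w j
        rw [pow_one]; linarith)
  have iC : ∀ h : MvPolynomial (Fin n) ℝ, Integrable (fun w : W n =>
      ((eval w.1 h * g w.1 : ℝ) : ℂ)) (μ n) := by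
    intro h
    obtain ⟨A', K', hA', hb'⟩ := hprod h
    have := integrable_snd_mul (fun x => eval x h * g x) (hcont _) A' K' hA' hb'
      (fun _ => 1) (by fun_prop) 0 (by intro w; simp)
    simpa using this
  rw [integral_congr_ae (Eventually.of_forall e)]
  have iJ : ∀ j : Fin n, Integrable (fun w : W n => ∑ k, (w.2 j : ℂ) * ((w.2 k : ℂ) *
          ((eval w.1 (pderiv k (pderiv j f)) * g w.1 : ℝ) : ℂ))
        - (w.1 j : ℂ) * ((eval w.1 (pderiv j f) * g w.1 : ℝ) : ℂ)) (μ n) := fun j =>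
    (integrable_finsetSum _ fun k _ => iA j k).sub (iB j)
  rw [integral_finsetSum _ fun j _ => iJ j]
  have e2 : ∀ j : Fin n, ∫ w : W n, (∑ k, (w.2 j : ℂ) * ((w.2 k : ℂ) *
          ((eval w.1 (pderiv k (pderiv j f)) * g w.1 : ℝ) : ℂ))
        - (w.1 j : ℂ) * ((eval w.1 (pderiv j f) * g w.1 : ℝ) : ℂ)) ∂(μ n)
      = ∫ w : W n, ((eval w.1 (pderiv j (pderiv j f)) * g w.1 : ℝ) : ℂ)
          - (w.1 j : ℂ) * ((eval w.1 (pderiv j f) * g w.1 : ℝ) : ℂ) ∂(μ n) := by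
    intro j
    rw [integral_sub (integrable_finsetSum _ fun k _ => iA j k) (iB j),
      integral_finsetSum _ fun k _ => iA j k, integral_sub (iC _) (iB j)]
    congr 1
    have : ∀ k : Fin n, ∫ w : W n, (w.2 j : ℂ) * ((w.2 k : ℂ) *
          ((eval w.1 (pderiv k (pderiv j f)) * g w.1 : ℝ) : ℂ)) ∂(μ n)
        = if k = j then ∫ w : W n, ((eval w.1 (pderiv k (pderiv j f)) * g w.1 : ℝ) : ℂ) ∂(μ n)
          else 0 := by
      intro k
      obtain ⟨A', K', hA', hb'⟩ := hprod (pderiv k (pderiv j f))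
      exact moment2 (fun x => eval x (pderiv k (pderiv j f)) * g x) (hcont _) A' K' hA' hb' j k
    simp only [this]
    simp
  simp only [e2]
  have iK : ∀ j : Fin n, Integrable (fun w : W n =>
      ((eval w.1 (pderiv j (pderiv j f)) * g w.1 : ℝ) : ℂ)
          - (w.1 j : ℂ) * ((eval w.1 (pderiv j f) * g w.1 : ℝ) : ℂ)) (μ n) := fun j =>
    (iC _).sub (iB j)
  rw [← integral_finsetSum _ fun j _ => iK j]
  have e3 : ∀ w : W n, ∑ j, (((eval w.1 (pderiv j (pderiv j f)) * g w.1 : ℝ) : ℂ)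
          - (w.1 j : ℂ) * ((eval w.1 (pderiv j f) * g w.1 : ℝ) : ℂ))
      = ((eval w.1 (nf f) * g w.1 : ℝ) : ℂ) := by
    intro w
    rw [Finset.sum_sub_distrib]
    simp only [nf, lf, xf, map_sub, map_sum, map_mul, eval_X]
    push_cast
    rw [sub_mul, Finset.sum_mul, Finset.sum_mul]
    congr 1
    refine Finset.sum_congr rfl fun j _ => ?_
    ring
  simp only [e3]
  rw [integral_complex_ofReal]
  congr 1
  have := integral_prod_mul (μ := γ n) (ν := γ n) (fun x => eval x (nf f) * g x) (fun _ => (1:ℝ))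
  simpa using this

end

end Pool.Agent.Helper228.GH
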