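import Pool.Agent.Helper228.GH.Deriv

/-! The convexity computation. -/

open MeasureTheory ProbabilityTheory Filter MvPolynomial
open scoped ENNReal Topology ComplexConjugate

namespace Pool.Agent.Helper228.GH

noncomputable section

/-- holomorphic embedding -/
def hE (n : ℕ) : MvPolynomial (Fin n) ℝ →+* R n :=
  ((rename Sum.inl : MvPolynomial (Fin n) ℂ →ₐ[ℂ] R n) : MvPolynomial (Fin n) ℂ →+* R n).comp
    (map Complex.ofRealHom)

/-- antiholomorphic embedding -/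
def bE (n : ℕ) : MvPolynomial (Fin n) ℝ →+* R n :=
  ((rename Sum.inr : MvPolynomial (Fin n) ℂ →ₐ[ℂ] R n) : MvPolynomial (Fin n) ℂ →+* R n).comp
    (map Complex.ofRealHom)

lemma hE_apply {n : ℕ} (g : MvPolynomial (Fin n) ℝ) :
    hE n g = rename Sum.inl (map Complex.ofRealHom g) := rfl

lemma bE_apply {n : ℕ} (g : MvPolynomial (Fin n) ℝ) :
    bE n g = rename Sum.inr (map Complex.ofRealHom g) := rfl

@[simp] lemma hE_X {n : ℕ} (j : Fin n) : hE n (X j) = X (Sum.inl j) := by simp [hE_apply]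
@[simp] lemma bE_X {n : ℕ} (j : Fin n) : bE n (X j) = X (Sum.inr j) := by simp [bE_apply]
@[simp] lemma hE_C {n : ℕ} (r : ℝ) : hE n (C r) = C (r : ℂ) := by simp [hE_apply]
@[simp] lemma bE_C {n : ℕ} (r : ℝ) : bE n (C r) = C (r : ℂ) := by simp [bE_apply]

@[simp] lemma pderiv_inl_h {n : ℕ} (j : Fin n) (g : MvPolynomial (Fin n) ℝ) :
    pderiv (Sum.inl j) (hE n g) = hE n (pderiv j g) := by
  rw [hE_apply, hE_apply, pderiv_rename Sum.inl_injective, pderiv_map]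

@[simp] lemma pderiv_inr_b {n : ℕ} (j : Fin n) (g : MvPolynomial (Fin n) ℝ) :
    pderiv (Sum.inr j) (bE n g) = bE n (pderiv j g) := by
  rw [bE_apply, bE_apply, pderiv_rename Sum.inr_injective, pderiv_map]

@[simp] lemma pderiv_inr_h {n : ℕ} (j : Fin n) (g : MvPolynomial (Fin n) ℝ) :
    pderiv (Sum.inr j) (hE n g) = 0 := by
  classical
  rw [hE_apply]
  refine pderiv_eq_zero_of_notMem_vars fun h => ?_
  have := vars_rename Sum.inl (map Complex.ofRealHom g) h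
  simp at this

@[simp] lemma pderiv_inl_b {n : ℕ} (j : Fin n) (g : MvPolynomial (Fin n) ℝ) :
    pderiv (Sum.inl j) (bE n g) = 0 := by
  classical
  rw [bE_apply]
  refine pderiv_eq_zero_of_notMem_vars fun h => ?_
  have := vars_rename Sum.inr (map Complex.ofRealHom g) h
  simp at this

lemma eval_b {n : ℕ} (g : MvPolynomial (Fin n) ℝ) (τ : ℝ) (w : W n) :
    eval (Z τ w) (bE n g) = conj (eval (Z τ w) (hE n g)) := by
  induction g using MvPolynomial.induction_on with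
  | C a => simp
  | add p q hp hq => simp [hp, hq]
  | mul_X p i hp =>
    simp only [map_mul, hp, hE_X, bE_X, eval_X]
    congr 1
    simp only [Z, Sum.elim_inr, Sum.elim_inl, map_add, map_mul, Complex.conj_ofReal,
      Complex.conj_I]
    ring

/-- the polynomial `|f|²` -/
def sf {n : ℕ} (f : MvPolynomial (Fin n) ℝ) : R n := hE n f * bE n f

lemma eval_sf {n : ℕ} (f : MvPolynomial (Fin n) ℝ) (τ : ℝ) (w : W n) :
    eval (Z τ w) (sf f) = ((‖eval (Z τ w) (hE n f)‖ ^ 2 : ℝ) : ℂ) := by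
  rw [sf, map_mul, eval_b, Complex.mul_conj, Complex.normSq_eq_norm_sq]

lemma nonneg_sf {n : ℕ} (f : MvPolynomial (Fin n) ℝ) : Nonneg (sf f) := fun τ w =>
  ⟨_, by positivity, eval_sf f τ w⟩

/-! ### linearity of `J` -/

section lin

variable {n : ℕ} {s₀ : R n} (hs : Nonneg s₀) {c : ℝ} (hc : 0 ≤ c) (hc1 : c ≤ 1) (κ : ℂ) (τ : ℝ)
include hs hc hc1

lemma J_add (P Q : R n) : J s₀ c κ (P + Q) τ = J s₀ c κ P τ + J s₀ c κ Q τ := by
  unfold J
  rw [← integral_add (integrable_Psi hs hc hc1 κ P τ) (integrable_Psi hs hc hc1 κ Q τ)]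
  congr 1; funext w
  simp only [Psi, map_add, add_mul]

lemma J_sum (s : Finset (Fin n)) (P : Fin n → R n) :
    J s₀ c κ (∑ j ∈ s, P j) τ = ∑ j ∈ s, J s₀ c κ (P j) τ := by
  unfold J
  rw [← integral_finsetSum _ fun j _ => integrable_Psi hs hc hc1 κ (P j) τ]
  congr 1; funext w
  simp only [Psi, map_sum, Finset.sum_mul]

omit hs hc hc1 in
lemma J_C (a : ℂ) (Q : R n) : J s₀ c κ (C a * Q) τ = a * J s₀ c κ Q τ := by
  unfold J
  rw [← integral_const_mul]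
  congr 1; funext w
  simp only [Psi, map_mul, eval_C]
  ring

lemma ENhol_eq (Q : R n) : ENhol s₀ c κ Q τ
    = J s₀ c (κ - 1) (∑ j, X (Sum.inl j) * dS s₀ c κ (Sum.inl j) Q) τ
      - J s₀ c (κ - 1 - 1) (∑ j, dS s₀ c (κ - 1) (Sum.inl j) (dS s₀ c κ (Sum.inl j) Q)) τ := by
  unfold ENhol a2
  rw [J_sum hs hc hc1, J_sum hs hc hc1, Finset.sum_sub_distrib]

lemma ENbar_eq (Q : R n) : ENbar s₀ c κ Q τ
    = J s₀ c (κ - 1) (∑ j, X (Sum.inr j) * dS s₀ c κ (Sum.inr j) Q) τ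
      - J s₀ c (κ - 1 - 1) (∑ j, dS s₀ c (κ - 1) (Sum.inr j) (dS s₀ c κ (Sum.inr j) Q)) τ := by
  unfold ENbar a2
  rw [J_sum hs hc hc1, J_sum hs hc hc1, Finset.sum_sub_distrib]

omit hc1 in
lemma J_S (Q : R n) : J s₀ c (κ - 1) ((1 + C (c : ℂ) * s₀) * Q) τ = J s₀ c κ Q τ := by
  unfold J
  congr 1; funext w
  have hE := Complex.slitPlane_ne_zero (mem_slit hs hc τ w)
  unfold Psi
  rw [Complex.cpow_sub _ _ hE, Complex.cpow_one]
  simp only [map_mul, map_add, map_one, eval_C]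
  field_simp

end lin

/-! ### the polynomials -/

/-- `Σ x_j ∂_j f` -/
def xf {n : ℕ} (f : MvPolynomial (Fin n) ℝ) : MvPolynomial (Fin n) ℝ := ∑ j, X j * pderiv j f
/-- Laplacian -/
def lf {n : ℕ} (f : MvPolynomial (Fin n) ℝ) : MvPolynomial (Fin n) ℝ := ∑ j, pderiv j (pderiv j f)
/-- squared gradient -/
def qf {n : ℕ} (f : MvPolynomial (Fin n) ℝ) : MvPolynomial (Fin n) ℝ := ∑ j, pderiv j f ^ 2
/-- `η = (𝒩 - d) f` -/
def ηf {n : ℕ} (d : ℕ) (f : MvPolynomial (Fin n) ℝ) : MvPolynomial (Fin n) ℝ :=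
  xf f - lf f - C (d : ℝ) * f

lemma P1 {n : ℕ} (f : MvPolynomial (Fin n) ℝ) (c ν : ℂ) :
    ∑ j, X (Sum.inl j) * dS (sf f) c ν (Sum.inl j) 1 = C (ν * c) * (bE n f * hE n (xf f)) := by
  simp only [xf, map_sum, map_mul, Finset.mul_sum]
  refine Finset.sum_congr rfl fun j _ => ?_
  simp only [dS, sf, Derivation.leibniz, smul_eq_mul, pderiv_inl_h, pderiv_inl_b, hE_X, pderiv_one]
  simp only [map_mul]
  ring

lemma P2 {n : ℕ} (f : MvPolynomial (Fin n) ℝ) (c ν : ℂ) :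
    ∑ j, dS (sf f) c (ν - 1) (Sum.inl j) (dS (sf f) c ν (Sum.inl j) 1)
      = (1 + C c * sf f) * (C (ν * c) * (bE n f * hE n (lf f)))
        + C ((ν - 1) * ν * c ^ 2) * (bE n f ^ 2 * hE n (qf f)) := by
  simp only [lf, qf, map_sum, map_pow, Finset.mul_sum, ← Finset.sum_add_distrib]
  refine Finset.sum_congr rfl fun j _ => ?_
  simp only [dS, sf, Derivation.leibniz, smul_eq_mul, pderiv_inl_h, pderiv_inl_b, pderiv_one,
    pderiv_C, map_add, map_zero]
  simp only [map_mul, map_sub, map_pow, C_1]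
  ring

lemma P3 {n : ℕ} (f g : MvPolynomial (Fin n) ℝ) (c κ : ℂ) :
    ∑ j, X (Sum.inr j) * dS (sf f) c κ (Sum.inr j) (bE n f * hE n g)
      = bE n (xf f) * (hE n g * (1 + C c * sf f + C (κ * c) * sf f)) := by
  simp only [xf, map_sum, map_mul, Finset.sum_mul]
  refine Finset.sum_congr rfl fun j _ => ?_
  simp only [dS, sf, Derivation.leibniz, smul_eq_mul, pderiv_inr_h, pderiv_inr_b, bE_X]
  simp only [map_mul]
  ring

lemma P4 {n : ℕ} (f g : MvPolynomial (Fin n) ℝ) (c κ : ℂ) :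
    ∑ j, dS (sf f) c (κ - 1) (Sum.inr j) (dS (sf f) c κ (Sum.inr j) (bE n f * hE n g))
      = bE n (lf f) * (hE n g * ((1 + C c * sf f) * (1 + C c * sf f + C (κ * c) * sf f)))
        + bE n (qf f) * (hE n g * (hE n f * (C c * (C (1 + κ) * (1 + C c * sf f)
          + C (κ - 1) * (1 + C c * sf f + C (κ * c) * sf f))))) := by
  simp only [lf, qf, map_sum, map_pow, Finset.sum_mul, ← Finset.sum_add_distrib]
  refine Finset.sum_congr rfl fun j _ => ?_
  simp only [dS, sf, Derivation.leibniz, smul_eq_mul, pderiv_inr_h, pderiv_inr_b, pderiv_one,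
    pderiv_C, map_add, map_zero]
  simp only [map_mul, map_sub, C_1]
  ring

lemma P5 {n : ℕ} (f g : MvPolynomial (Fin n) ℝ) (c κ : ℂ) :
    ∑ j, X (Sum.inr j) * dS (sf f) c κ (Sum.inr j) (bE n f ^ 2 * hE n g)
      = bE n (xf f) * (bE n f * (hE n g * (2 * (1 + C c * sf f) + C (κ * c) * sf f))) := by
  simp only [xf, map_sum, map_mul, Finset.sum_mul]
  refine Finset.sum_congr rfl fun j _ => ?_
  simp only [dS, sf, pow_two, Derivation.leibniz, smul_eq_mul, pderiv_inr_h, pderiv_inr_b, bE_X]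
  simp only [map_mul]
  ring

lemma P6 {n : ℕ} (f g : MvPolynomial (Fin n) ℝ) (c κ : ℂ) :
    ∑ j, dS (sf f) c (κ - 1) (Sum.inr j) (dS (sf f) c κ (Sum.inr j) (bE n f ^ 2 * hE n g))
      = bE n (lf f) * (bE n f * (hE n g * ((1 + C c * sf f) * (2 * (1 + C c * sf f)
          + C (κ * c) * sf f))))
        + bE n (qf f) * (hE n g * ((1 + C c * sf f) * (2 * (1 + C c * sf f) + C (κ * c) * sf f)
          + (1 + C c * sf f) * (C c * sf f) * C (2 + κ)
          + C (κ - 1) * (C c * sf f) * (2 * (1 + C c * sf f) + C (κ * c) * sf f))) := by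
  have h2 : (2 : R n) = C 2 := (map_ofNat C 2).symm
  simp only [lf, qf, map_sum, map_pow, Finset.sum_mul, ← Finset.sum_add_distrib]
  refine Finset.sum_congr rfl fun j _ => ?_
  simp only [dS, sf, pow_two, Derivation.leibniz, smul_eq_mul, pderiv_inr_h, pderiv_inr_b,
    pderiv_one, pderiv_C, map_add, map_zero]
  simp only [map_mul, map_sub, C_1, ← h2]
  ring

/-! ### first derivative -/

/-- `m(τ)` -/
def mm {n : ℕ} (f : MvPolynomial (Fin n) ℝ) (d : ℕ) (ν : ℂ) (τ : ℝ) : ℂ :=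
  J (sf f) (cf d τ) ν 1 τ

/-- `N₁` -/
def N1 {n : ℕ} (f : MvPolynomial (Fin n) ℝ) (d : ℕ) (ν : ℂ) (τ : ℝ) : ℂ :=
  ν * (cf d τ * J (sf f) (cf d τ) (ν - 1) (bE n f * hE n (ηf d f)) τ)
    - ν * (ν - 1) * ((cf d τ : ℂ) ^ 2 * J (sf f) (cf d τ) (ν - 2) (bE n f ^ 2 * hE n (qf f)) τ)

lemma hasDerivAt_mm {n : ℕ} (f : MvPolynomial (Fin n) ℝ) (d : ℕ) (ν : ℂ) (τ : ℝ) :
    HasDerivAt (mm f d ν) (2 * Real.tanh (2 * τ) * N1 f d ν τ) τ := by
  have hs := nonneg_sf f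
  refine (hasDerivAt_J_hol hs d ν 1 τ).congr_deriv ?_
  congr 1
  have h0 := cf_nonneg d τ
  have h1 := cf_le_one d τ
  rw [ENhol_eq hs h0 h1, P1, P2, J_add hs h0 h1, J_S hs h0, J_C, J_C, J_C, N1]
  have e1 : J (sf f) (cf d τ) (ν - 1) (bE n f * hE n (ηf d f)) τ
      = J (sf f) (cf d τ) (ν - 1) (bE n f * hE n (xf f)) τ
        + (-1) * J (sf f) (cf d τ) (ν - 1) (bE n f * hE n (lf f)) τ
        + (-(d : ℂ)) * J (sf f) (cf d τ) (ν - 1) (sf f * 1) τ := by
    rw [← J_C, ← J_C, ← J_add hs h0 h1, ← J_add hs h0 h1]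
    congr 1
    simp only [ηf, sf, map_sub, map_mul, hE_C, map_neg, C_1, Complex.ofReal_natCast]
    ring
  rw [e1]
  have e2 : (ν - 1 - 1 : ℂ) = ν - 2 := by ring
  rw [e2]
  ring

end

end Pool.Agent.Helper228.GH
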