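import Pool.Agent.Helper228.GH.Key

/-! Second derivative and its positivity. -/

open MeasureTheory ProbabilityTheory Filter MvPolynomial
open scoped ENNReal Topology ComplexConjugate

namespace Pool.Agent.Helper228.GH

noncomputable section

/-- `N₂` -/
def N2 {n : ℕ} (f : MvPolynomial (Fin n) ℝ) (d : ℕ) (ν : ℂ) (τ : ℝ) : ℂ :=
  ν * (cf d τ * (-(d : ℂ) * J (sf f) (cf d τ) (ν - 1) (bE n f * hE n (ηf d f)) τ
    + ENbar (sf f) (cf d τ) (ν - 1) (bE n f * hE n (ηf d f)) τ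
    - d * cf d τ * (ν - 1) * J (sf f) (cf d τ) (ν - 1 - 1) (sf f * (bE n f * hE n (ηf d f))) τ))
  - ν * (ν - 1) * ((cf d τ : ℂ) ^ 2 *
    (-(2 * d : ℂ) * J (sf f) (cf d τ) (ν - 2) (bE n f ^ 2 * hE n (qf f)) τ
    + ENbar (sf f) (cf d τ) (ν - 2) (bE n f ^ 2 * hE n (qf f)) τ
    - d * cf d τ * (ν - 2) * J (sf f) (cf d τ) (ν - 2 - 1) (sf f * (bE n f ^ 2 * hE n (qf f))) τ))

lemma hasDerivAt_N1 {n : ℕ} (f : MvPolynomial (Fin n) ℝ) (d : ℕ) (ν : ℂ) (τ : ℝ) :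
    HasDerivAt (N1 f d ν) (2 * Real.tanh (2 * τ) * N2 f d ν τ) τ := by
  have hs := nonneg_sf f
  have h1 := hasDerivAt_J_bar hs d (ν - 1) (bE n f * hE n (ηf d f)) τ
  have h2 := hasDerivAt_J_bar hs d (ν - 2) (bE n f ^ 2 * hE n (qf f)) τ
  have hc := (hasDerivAt_cf d τ).ofReal_comp
  have h3 := (hc.fun_mul h1).const_mul ν
  have h4 := ((hc.fun_pow 2).fun_mul h2).const_mul (ν * (ν - 1))
  have h5 := h3.fun_sub h4
  refine h5.congr_deriv ?_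
  unfold N2
  push_cast
  ring

/-- real inequality: positivity of the quadratic form -/
lemma psd (ν c a b r ρ : ℝ) (hν : 1 ≤ ν) (hc : 0 ≤ c) (ha : 0 ≤ a)
    (hρ : ρ ≤ a * b * r) :
    0 ≤ a ^ 2 * (1 + c * r ^ 2) ^ 2 * (1 + ν * (c * r ^ 2))
      - (ν - 1) * c * (2 * ρ) * (2 + ν * (c * r ^ 2)) * (1 + c * r ^ 2)
      + (ν - 1) * c * b ^ 2 * (2 + 4 * (ν - 1) * (c * r ^ 2)
        + ν * (ν - 1) * (c * r ^ 2) ^ 2) := by
  set s := c * r ^ 2 with hs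
  have hs0 : 0 ≤ s := by positivity
  have hν0 : 0 ≤ ν := by linarith
  have hν1 : 0 ≤ ν - 1 := by linarith
  set A := a * (1 + s) with hA
  have hA0 : 0 ≤ A := by positivity
  have hU : 0 < 1 + ν * s := by positivity
  have h1 : (ν - 1) * c * (2 * ρ) * (2 + ν * s) * (1 + s)
      ≤ (ν - 1) * c * (2 * (a * b * r)) * (2 + ν * s) * (1 + s) := by
    have : (0:ℝ) ≤ (ν - 1) * c * (2 + ν * s) * (1 + s) := by positivity
    nlinarith
  have h2 : 0 ≤ (1 + ν * s) * (A ^ 2 * (1 + ν * s) - (ν - 1) * c * (2 * (A * b * r)) * (2 + ν * s)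
      + (ν - 1) * c * b ^ 2 * (2 + 4 * (ν - 1) * s + ν * (ν - 1) * s ^ 2)) := by
    have e : (1 + ν * s) * (A ^ 2 * (1 + ν * s) - (ν - 1) * c * (2 * (A * b * r)) * (2 + ν * s)
      + (ν - 1) * c * b ^ 2 * (2 + 4 * (ν - 1) * s + ν * (ν - 1) * s ^ 2))
      = (A * (1 + ν * s) - (ν - 1) * c * b * r * (2 + ν * s)) ^ 2
        + (ν - 1) * c * b ^ 2 * (2 + 2 * ν * s + ν * (ν - 1) * s ^ 2) := by
      have e2 : (ν - 1) ^ 2 * c ^ 2 * b ^ 2 * r ^ 2 * (2 + ν * s) ^ 2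
          = (ν - 1) ^ 2 * c * b ^ 2 * s * (2 + ν * s) ^ 2 := by rw [hs]; ring
      linear_combination -e2
    rw [e]
    have : 0 ≤ (ν - 1) * c * b ^ 2 * (2 + 2 * ν * s + ν * (ν - 1) * s ^ 2) := by positivity
    nlinarith [sq_nonneg (A * (1 + ν * s) - (ν - 1) * c * b * r * (2 + ν * s))]
  have h3 := nonneg_of_mul_nonneg_right h2 hU
  have e4 : (ν - 1) * c * (2 * (A * b * r)) * (2 + ν * s)
      = (ν - 1) * c * (2 * (a * b * r)) * (2 + ν * s) * (1 + s) := by rw [hA]; ring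
  have e5 : A ^ 2 * (1 + ν * s) = a ^ 2 * (1 + s) ^ 2 * (1 + ν * s) := by rw [hA]; ring
  rw [e4, e5] at h3
  linarith

lemma ev_η {n : ℕ} (f : MvPolynomial (Fin n) ℝ) (d : ℕ) (z : Fin n ⊕ Fin n → ℂ) :
    eval z (bE n (xf f)) = eval z (bE n (ηf d f)) + eval z (bE n (lf f)) + d * eval z (bE n f) := by
  simp only [ηf, map_sub, map_mul, bE_C, eval_C, Complex.ofReal_natCast]
  ring

/-- integrand of `N₂` -/
def Int2 {n : ℕ} (f : MvPolynomial (Fin n) ℝ) (d : ℕ) (ν : ℂ) (c : ℝ) (z : Fin n ⊕ Fin n → ℂ) : ℂ :=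
  ν * (c * (-(d : ℂ) * Psi (sf f) c (ν - 1) (bE n f * hE n (ηf d f)) z
    + (Psi (sf f) c (ν - 1 - 1)
        (∑ j, X (Sum.inr j) * dS (sf f) c (ν - 1) (Sum.inr j) (bE n f * hE n (ηf d f))) z
      - Psi (sf f) c (ν - 1 - 1 - 1) (∑ j, dS (sf f) c (ν - 1 - 1) (Sum.inr j)
          (dS (sf f) c (ν - 1) (Sum.inr j) (bE n f * hE n (ηf d f)))) z)
    - d * c * (ν - 1) * Psi (sf f) c (ν - 1 - 1) (sf f * (bE n f * hE n (ηf d f))) z))
  - ν * (ν - 1) * ((c : ℂ) ^ 2 *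
    (-(2 * d : ℂ) * Psi (sf f) c (ν - 2) (bE n f ^ 2 * hE n (qf f)) z
    + (Psi (sf f) c (ν - 2 - 1)
        (∑ j, X (Sum.inr j) * dS (sf f) c (ν - 2) (Sum.inr j) (bE n f ^ 2 * hE n (qf f))) z
      - Psi (sf f) c (ν - 2 - 1 - 1) (∑ j, dS (sf f) c (ν - 2 - 1) (Sum.inr j)
          (dS (sf f) c (ν - 2) (Sum.inr j) (bE n f ^ 2 * hE n (qf f)))) z)
    - d * c * (ν - 2) * Psi (sf f) c (ν - 2 - 1) (sf f * (bE n f ^ 2 * hE n (qf f))) z))

lemma int_split4 {n : ℕ} (a b p r : ℂ) (f1 f2 f3 f4 : W n → ℂ)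
    (i1 : Integrable f1 (μ n)) (i2 : Integrable f2 (μ n)) (i3 : Integrable f3 (μ n))
    (i4 : Integrable f4 (μ n)) :
    Integrable (fun w => a * (b * (p * f1 w + (f2 w - f3 w) - r * f4 w))) (μ n) ∧
    ∫ w, a * (b * (p * f1 w + (f2 w - f3 w) - r * f4 w)) ∂(μ n)
      = a * (b * (p * ∫ w, f1 w ∂(μ n) + (∫ w, f2 w ∂(μ n) - ∫ w, f3 w ∂(μ n))
        - r * ∫ w, f4 w ∂(μ n))) := by
  have a1 : Integrable (fun w => p * f1 w) (μ n) := i1.const_mul _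
  have a2 : Integrable (fun w => f2 w - f3 w) (μ n) := i2.sub i3
  have a3 : Integrable (fun w => p * f1 w + (f2 w - f3 w)) (μ n) := a1.add a2
  have a4 : Integrable (fun w => r * f4 w) (μ n) := i4.const_mul _
  constructor
  · exact ((a3.sub a4).const_mul _).const_mul _
  · rw [integral_const_mul, integral_const_mul, integral_sub a3 a4, integral_add a1 a2,
      integral_sub i2 i3, integral_const_mul, integral_const_mul]

lemma N2_eq {n : ℕ} (f : MvPolynomial (Fin n) ℝ) (d : ℕ) (ν : ℂ) (τ : ℝ) :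
    Integrable (fun w => Int2 f d ν (cf d τ) (Z τ w)) (μ n) ∧
    N2 f d ν τ = ∫ w, Int2 f d ν (cf d τ) (Z τ w) ∂(μ n) := by
  have hs := nonneg_sf f
  have h0 := cf_nonneg d τ
  have h1 := cf_le_one d τ
  have hI : ∀ (κ : ℂ) (Q : R n), Integrable (fun w => Psi (sf f) (cf d τ) κ Q (Z τ w)) (μ n) :=
    fun κ Q => integrable_Psi hs h0 h1 κ Q τ
  have s1 := int_split4 ν (cf d τ) (-(d : ℂ)) (d * cf d τ * (ν - 1)) _ _ _ _
    (hI (ν - 1) (bE n f * hE n (ηf d f)))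
    (hI (ν - 1 - 1) (∑ j, X (Sum.inr j) *
      dS (sf f) (cf d τ) (ν - 1) (Sum.inr j) (bE n f * hE n (ηf d f))))
    (hI (ν - 1 - 1 - 1) (∑ j, dS (sf f) (cf d τ) (ν - 1 - 1) (Sum.inr j)
          (dS (sf f) (cf d τ) (ν - 1) (Sum.inr j) (bE n f * hE n (ηf d f)))))
    (hI (ν - 1 - 1) (sf f * (bE n f * hE n (ηf d f))))
  have s2 := int_split4 (ν * (ν - 1)) ((cf d τ : ℂ) ^ 2) (-(2 * d : ℂ)) (d * cf d τ * (ν - 2)) _ _ _ _
    (hI (ν - 2) (bE n f ^ 2 * hE n (qf f)))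
    (hI (ν - 2 - 1) (∑ j, X (Sum.inr j) *
      dS (sf f) (cf d τ) (ν - 2) (Sum.inr j) (bE n f ^ 2 * hE n (qf f))))
    (hI (ν - 2 - 1 - 1) (∑ j, dS (sf f) (cf d τ) (ν - 2 - 1) (Sum.inr j)
          (dS (sf f) (cf d τ) (ν - 2) (Sum.inr j) (bE n f ^ 2 * hE n (qf f)))))
    (hI (ν - 2 - 1) (sf f * (bE n f ^ 2 * hE n (qf f))))
  refine ⟨s1.1.sub s2.1, ?_⟩
  have s3 := integral_sub s1.1 s2.1
  unfold Int2
  rw [s3, s1.2, s2.2]
  unfold N2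
  rw [ENbar_eq hs h0 h1, ENbar_eq hs h0 h1]
  rfl

lemma Int2_eq {n : ℕ} (f : MvPolynomial (Fin n) ℝ) (d : ℕ) (ν : ℂ) (c : ℝ) (z : Fin n ⊕ Fin n → ℂ)
    (hE0 : 1 + (c : ℂ) * eval z (sf f) ≠ 0) :
    Int2 f d ν c z = ν * c * (1 + (c : ℂ) * eval z (sf f)) ^ (ν - 4) *
      (eval z (hE n (ηf d f)) * eval z (bE n (ηf d f)) * (1 + (c : ℂ) * eval z (sf f)) ^ 2
          * (1 + ν * (c * eval z (sf f)))
        - (ν - 1) * c * (eval z (hE n (ηf d f)) * eval z (bE n (qf f)) * eval z (hE n f)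
            + eval z (bE n (ηf d f)) * eval z (hE n (qf f)) * eval z (bE n f))
          * (2 + ν * (c * eval z (sf f))) * (1 + (c : ℂ) * eval z (sf f))
        + (ν - 1) * c * (eval z (hE n (qf f)) * eval z (bE n (qf f)))
          * (2 + 4 * (ν - 1) * (c * eval z (sf f)) + ν * (ν - 1) * (c * eval z (sf f)) ^ 2)) := by
  unfold Int2
  rw [P3, P4, P5, P6]
  unfold Psi
  simp only [map_mul, map_add, map_sub, map_pow, map_one, map_ofNat, eval_C, ev_η f d]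
  have hsf : eval z (sf f) = eval z (hE n f) * eval z (bE n f) := by rw [sf, map_mul]
  set E := 1 + (c : ℂ) * eval z (sf f) with hEdef
  have hp : ∀ k : ℕ, E ^ (ν - 4 + k) = E ^ k * E ^ (ν - 4) := by
    intro k
    rw [Complex.cpow_add _ _ hE0, Complex.cpow_natCast]; ring
  have h3 : E ^ (ν - 1) = E ^ 3 * E ^ (ν - 4) := by
    rw [← hp 3]; congr 1; push_cast; ring
  have h2 : E ^ (ν - 1 - 1) = E ^ 2 * E ^ (ν - 4) := by
    rw [← hp 2]; congr 1; push_cast; ring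
  have h1 : E ^ (ν - 1 - 1 - 1) = E ^ 1 * E ^ (ν - 4) := by
    rw [← hp 1]; congr 1; push_cast; ring
  have h2' : E ^ (ν - 2) = E ^ 2 * E ^ (ν - 4) := by
    rw [← hp 2]; congr 1; push_cast; ring
  have h1' : E ^ (ν - 2 - 1) = E ^ 1 * E ^ (ν - 4) := by
    rw [← hp 1]; congr 1; push_cast; ring
  have h0' : E ^ (ν - 2 - 1 - 1) = E ^ (ν - 4) := by
    congr 1; ring
  rw [h3, h2, h1, h2', h1', h0']
  generalize E ^ (ν - 4) = P
  rw [hEdef, hsf]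
  ring

end

end Pool.Agent.Helper228.GH
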