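import Pool.Agent.Helper228.GH.Key2

/-! Positivity, monotonicity, and the key inequality. -/

open MeasureTheory ProbabilityTheory Filter MvPolynomial
open scoped ENNReal Topology ComplexConjugate

namespace Pool.Agent.Helper228.GH

noncomputable section

lemma Int2_re_nonneg {n : ℕ} (f : MvPolynomial (Fin n) ℝ) (d : ℕ) (ν : ℝ) (hν : 1 ≤ ν) (c : ℝ)
    (hc : 0 ≤ c) (τ : ℝ) (w : W n) : 0 ≤ (Int2 f d ν c (Z τ w)).re := by
  have hE0 := Complex.slitPlane_ne_zero (mem_slit (nonneg_sf f) hc τ w)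
  rw [Int2_eq f d ν c _ hE0, eval_b, eval_b, eval_b, eval_sf]
  set e := eval (Z τ w) (hE n (ηf d f))
  set q := eval (Z τ w) (hE n (qf f))
  set F := eval (Z τ w) (hE n f)
  set r := ‖F‖
  have hS : 0 < 1 + c * r ^ 2 := by positivity
  have e1 : 1 + (c : ℂ) * ((r ^ 2 : ℝ) : ℂ) = ((1 + c * r ^ 2 : ℝ) : ℂ) := by push_cast; ring
  have e2 : (1 + (c : ℂ) * ((r ^ 2 : ℝ) : ℂ)) ^ ((ν : ℂ) - 4)
      = (((1 + c * r ^ 2) ^ (ν - 4) : ℝ) : ℂ) := by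
    rw [e1, Complex.ofReal_cpow hS.le]; congr 1; push_cast; ring
  have e3 : e * conj e = ((‖e‖ ^ 2 : ℝ) : ℂ) := by rw [Complex.mul_conj, Complex.normSq_eq_norm_sq]
  have e4 : q * conj q = ((‖q‖ ^ 2 : ℝ) : ℂ) := by rw [Complex.mul_conj, Complex.normSq_eq_norm_sq]
  have e5 : e * conj q * F + conj e * q * conj F = ((2 * (e * conj q * F).re : ℝ) : ℂ) := by
    have h1 : conj e * q * conj F = conj (e * conj q * F) := by simp
    rw [h1, Complex.add_conj]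
  rw [e2, e3, e4, e5]
  set ρ := (e * conj q * F).re
  have hρ : ρ ≤ ‖e‖ * ‖q‖ * r := by
    refine (Complex.re_le_norm _).trans ?_
    rw [norm_mul, norm_mul, RCLike.norm_conj]
  have key := psd ν c ‖e‖ ‖q‖ r ρ hν hc (norm_nonneg _) hρ
  have hfin : ((ν : ℂ) * c * (((1 + c * r ^ 2) ^ (ν - 4) : ℝ) : ℂ) *
      (((‖e‖ ^ 2 : ℝ) : ℂ) * (1 + (c : ℂ) * ((r ^ 2 : ℝ) : ℂ)) ^ 2
          * (1 + (ν : ℂ) * (c * ((r ^ 2 : ℝ) : ℂ)))
        - ((ν : ℂ) - 1) * c * ((2 * ρ : ℝ) : ℂ)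
          * (2 + (ν : ℂ) * (c * ((r ^ 2 : ℝ) : ℂ))) * (1 + (c : ℂ) * ((r ^ 2 : ℝ) : ℂ))
        + ((ν : ℂ) - 1) * c * ((‖q‖ ^ 2 : ℝ) : ℂ)
          * (2 + 4 * ((ν : ℂ) - 1) * (c * ((r ^ 2 : ℝ) : ℂ))
            + (ν : ℂ) * ((ν : ℂ) - 1) * (c * ((r ^ 2 : ℝ) : ℂ)) ^ 2)))
      = ((ν * c * (1 + c * r ^ 2) ^ (ν - 4) *
        (‖e‖ ^ 2 * (1 + c * r ^ 2) ^ 2 * (1 + ν * (c * r ^ 2))
      - (ν - 1) * c * (2 * ρ) * (2 + ν * (c * r ^ 2)) * (1 + c * r ^ 2)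
      + (ν - 1) * c * ‖q‖ ^ 2 * (2 + 4 * (ν - 1) * (c * r ^ 2)
        + ν * (ν - 1) * (c * r ^ 2) ^ 2)) : ℝ) : ℂ) := by
    push_cast
    ring
  rw [hfin, Complex.ofReal_re]
  have : 0 ≤ (1 + c * r ^ 2) ^ (ν - 4) := Real.rpow_nonneg hS.le _
  have hν0 : 0 ≤ ν := by linarith
  positivity

lemma N2_re_nonneg {n : ℕ} (f : MvPolynomial (Fin n) ℝ) (d : ℕ) (ν : ℝ) (hν : 1 ≤ ν) (τ : ℝ) :
    0 ≤ (N2 f d ν τ).re := by
  rw [(N2_eq f d ν τ).2]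
  have h := integral_re (N2_eq f d ν τ).1
  have h2 : (∫ w, Int2 f d ν (cf d τ) (Z τ w) ∂(μ n)).re
      = ∫ w, (Int2 f d ν (cf d τ) (Z τ w)).re ∂(μ n) := h.symm
  rw [h2]
  exact integral_nonneg fun w => Int2_re_nonneg f d ν hν _ (cf_nonneg d τ) τ w

lemma hasDerivAt_re {g : ℝ → ℂ} {g' : ℂ} {t : ℝ} (h : HasDerivAt g g' t) :
    HasDerivAt (fun t => (g t).re) g'.re t := by
  have := (Complex.reCLM.hasFDerivAt (x := g t)).comp_hasDerivAt t h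
  exact this

lemma tanh_nonneg' {x : ℝ} (hx : 0 ≤ x) : 0 ≤ Real.tanh x := by
  rw [Real.tanh_eq_sinh_div_cosh]
  exact div_nonneg (Real.sinh_nonneg_iff.2 hx) (Real.cosh_pos x).le

lemma N1_mono {n : ℕ} (f : MvPolynomial (Fin n) ℝ) (d : ℕ) (ν : ℝ) (hν : 1 ≤ ν) :
    MonotoneOn (fun τ => (N1 f d ν τ).re) (Set.Ici 0) := by
  have hd : ∀ τ : ℝ, HasDerivAt (fun τ => (N1 f d ν τ).re)
      (2 * Real.tanh (2 * τ) * N2 f d ν τ).re τ := fun τ => hasDerivAt_re (hasDerivAt_N1 f d ν τ)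
  refine monotoneOn_of_deriv_nonneg (convex_Ici 0)
    (fun τ _ => (hd τ).continuousAt.continuousWithinAt)
    (fun τ _ => (hd τ).differentiableAt.differentiableWithinAt) ?_
  intro τ hτ
  rw [interior_Ici] at hτ
  rw [(hd τ).deriv]
  have e : (2 * (Real.tanh (2 * τ) : ℂ) * N2 f d ν τ) = ((2 * Real.tanh (2 * τ) : ℝ) : ℂ) * N2 f d ν τ := by
    push_cast; ring
  rw [e, Complex.re_ofReal_mul]
  have h1 := N2_re_nonneg f d ν hν τ
  have h2 := tanh_nonneg' (x := 2 * τ) (by linarith [Set.mem_Ioi.1 hτ])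
  positivity

lemma totalDegree_map_le' {n : ℕ} (f : MvPolynomial (Fin n) ℝ) :
    (MvPolynomial.map Complex.ofRealHom f).totalDegree ≤ f.totalDegree := by
  unfold totalDegree
  exact Finset.sup_mono (support_map_subset _ _)

/-- boundedness of `m` -/
lemma mm_bdd {n : ℕ} (f : MvPolynomial (Fin n) ℝ) (d : ℕ) (hd : f.totalDegree ≤ d) (ν : ℝ) :
    ∃ K : ℝ, ∀ τ, (mm f d ν τ).re ≤ K := by
  have hdeg : (hE n f).totalDegree ≤ d := by
    rw [hE_apply]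
    exact (totalDegree_rename_le _ _).trans ((totalDegree_map_le' f).trans hd)
  obtain ⟨A, hA, hb⟩ := eval_bound (hE n f) d hdeg
  set m := ⌈|ν|⌉₊
  refine ⟨∫ w, (1 + A ^ 2 * 4 ^ d) ^ m * (1 + ‖w‖) ^ (2 * d * m) ∂(μ n), fun τ => ?_⟩
  refine (Complex.re_le_norm _).trans ?_
  unfold mm J
  refine (norm_integral_le_integral_norm _).trans ?_
  refine integral_mono (integrable_Psi (nonneg_sf f) (cf_nonneg d τ) (cf_le_one d τ) _ _ τ).norm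
    ((integrable_pow_W n _).const_mul _) ?_
  intro w
  simp only [Psi, map_one, one_mul, eval_sf]
  have h1 := hb (Z τ w) _ (one_le_B τ w) (norm_Z_le τ w)
  set r := ‖eval (Z τ w) (hE n f)‖
  have hr : 0 ≤ r := norm_nonneg _
  have hS : (1:ℝ) ≤ 1 + cf d τ * r ^ 2 := by
    have := cf_nonneg d τ
    nlinarith [mul_nonneg this (sq_nonneg r)]
  have e1 : 1 + (cf d τ : ℂ) * ((r ^ 2 : ℝ) : ℂ) = ((1 + cf d τ * r ^ 2 : ℝ) : ℂ) := by
    push_cast; ring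
  rw [e1, Complex.norm_cpow_eq_rpow_re_of_pos (by linarith), Complex.ofReal_re]
  have h2 : (1 + cf d τ * r ^ 2) ^ ν ≤ (1 + cf d τ * r ^ 2) ^ m := by
    rw [← Real.rpow_natCast _ m]
    exact Real.rpow_le_rpow_of_exponent_le hS ((le_abs_self _).trans (Nat.le_ceil _))
  refine h2.trans ?_
  have hN : (1:ℝ) ≤ 1 + ‖w‖ := by linarith [norm_nonneg w]
  have h3 : cf d τ * r ^ 2 ≤ A ^ 2 * 4 ^ d * (1 + ‖w‖) ^ (2 * d) := by
    have hsq : r ^ 2 ≤ (A * (2 * Real.cosh τ * (1 + ‖w‖)) ^ d) ^ 2 := by gcongr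
    have hcc : Real.cosh τ ^ 2 ≤ Real.cosh (2 * τ) := by
      rw [Real.cosh_two_mul]; nlinarith [sq_nonneg (Real.sinh τ)]
    have hc2 : (Real.cosh (2 * τ))⁻¹ * Real.cosh τ ^ 2 ≤ 1 := by
      rw [inv_mul_le_iff₀ (Real.cosh_pos _)]; linarith
    calc cf d τ * r ^ 2 ≤ cf d τ * (A * (2 * Real.cosh τ * (1 + ‖w‖)) ^ d) ^ 2 :=
          mul_le_mul_of_nonneg_left hsq (cf_nonneg d τ)
      _ = A ^ 2 * 4 ^ d * (1 + ‖w‖) ^ (2 * d) * ((Real.cosh (2 * τ))⁻¹ * Real.cosh τ ^ 2) ^ d := by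
          unfold cf
          rw [mul_pow A, ← pow_mul, mul_comm d 2, pow_mul _ 2 d, mul_pow, mul_pow,
            mul_pow _ (Real.cosh τ ^ 2) d]
          rw [pow_mul (1 + ‖w‖) 2 d]
          have : (4 : ℝ) ^ d = (2 ^ 2) ^ d := by norm_num
          rw [this]
          ring
      _ ≤ A ^ 2 * 4 ^ d * (1 + ‖w‖) ^ (2 * d) * 1 := by
          refine mul_le_mul_of_nonneg_left ?_ (by positivity)
          exact pow_le_one₀ (by have := Real.cosh_pos (2 * τ); positivity) hc2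
      _ = _ := by ring
  have h4 : 1 + cf d τ * r ^ 2 ≤ (1 + A ^ 2 * 4 ^ d) * (1 + ‖w‖) ^ (2 * d) := by
    have : 1 ≤ (1 + ‖w‖) ^ (2 * d) := one_le_pow₀ hN
    nlinarith
  calc (1 + cf d τ * r ^ 2) ^ m ≤ ((1 + A ^ 2 * 4 ^ d) * (1 + ‖w‖) ^ (2 * d)) ^ m :=
        pow_le_pow_left₀ (by linarith) h4 m
    _ = _ := by rw [mul_pow, ← pow_mul]

lemma tanh_mono {x y : ℝ} (h : x ≤ y) : Real.tanh x ≤ Real.tanh y := by
  rw [Real.tanh_eq_sinh_div_cosh, Real.tanh_eq_sinh_div_cosh,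
    div_le_div_iff₀ (Real.cosh_pos x) (Real.cosh_pos y)]
  have := Real.sinh_sub y x
  have h2 : 0 ≤ Real.sinh (y - x) := Real.sinh_nonneg_iff.2 (by linarith)
  nlinarith

lemma N1_nonpos {n : ℕ} (f : MvPolynomial (Fin n) ℝ) (d : ℕ) (hd : f.totalDegree ≤ d) (ν : ℝ)
    (hν : 1 ≤ ν) (τ₀ : ℝ) (hτ₀ : 0 ≤ τ₀) : (N1 f d ν τ₀).re ≤ 0 := by
  by_contra hcon
  push Not at hcon
  obtain ⟨K, hK⟩ := mm_bdd f d hd ν
  set δ := 2 * Real.tanh 2 * (N1 f d ν τ₀).re with hδ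
  have hδ0 : 0 < δ := by
    have : 0 < Real.tanh 2 := by
      rw [Real.tanh_eq_sinh_div_cosh]
      exact div_pos (Real.sinh_pos_iff.2 (by norm_num)) (Real.cosh_pos 2)
    positivity
  set τ₁ := max τ₀ 1
  have hdm : ∀ τ : ℝ, HasDerivAt (fun τ => (mm f d ν τ).re)
      (2 * Real.tanh (2 * τ) * N1 f d ν τ).re τ := fun τ => hasDerivAt_re (hasDerivAt_mm f d ν τ)
  have hge : ∀ τ ≥ τ₁, δ ≤ (2 * Real.tanh (2 * τ) * N1 f d ν τ).re := by
    intro τ hτ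
    have e : (2 * (Real.tanh (2 * τ) : ℂ) * N1 f d ν τ)
        = ((2 * Real.tanh (2 * τ) : ℝ) : ℂ) * N1 f d ν τ := by push_cast; ring
    rw [e, Complex.re_ofReal_mul]
    have h1 : τ₀ ≤ τ := (le_max_left _ _).trans hτ
    have h2 : 1 ≤ τ := (le_max_right _ _).trans hτ
    have h3 : (N1 f d ν τ₀).re ≤ (N1 f d ν τ).re :=
      N1_mono f d ν hν (Set.mem_Ici.2 hτ₀) (Set.mem_Ici.2 (hτ₀.trans h1)) h1
    have h4 : Real.tanh 2 ≤ Real.tanh (2 * τ) := tanh_mono (by linarith)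
    have h5 : 0 ≤ Real.tanh 2 := tanh_nonneg' (by norm_num)
    rw [hδ]
    exact mul_le_mul (by linarith) h3 hcon.le (by linarith)
  -- mean value
  have hmono : MonotoneOn (fun τ => (mm f d ν τ).re - δ * τ) (Set.Ici τ₁) := by
    have hd2 : ∀ τ : ℝ, HasDerivAt (fun τ => (mm f d ν τ).re - δ * τ)
        ((2 * Real.tanh (2 * τ) * N1 f d ν τ).re - δ) τ := fun τ => by
      have := (hdm τ).fun_sub ((hasDerivAt_id' τ).const_mul δ)
      rw [mul_one] at this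
      exact this
    refine monotoneOn_of_deriv_nonneg (convex_Ici τ₁)
      (fun τ _ => (hd2 τ).continuousAt.continuousWithinAt)
      (fun τ _ => (hd2 τ).differentiableAt.differentiableWithinAt) ?_
    intro τ hτ
    rw [interior_Ici] at hτ
    rw [(hd2 τ).deriv]
    linarith [hge τ (Set.mem_Ioi.1 hτ).le]
  set τ₂ := τ₁ + (|K - (mm f d ν τ₁).re| + 1) / δ
  have h6 : τ₁ ≤ τ₂ := by
    have : 0 ≤ (|K - (mm f d ν τ₁).re| + 1) / δ := by positivity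
    linarith
  have h7 := hmono (Set.mem_Ici.2 le_rfl) (Set.mem_Ici.2 h6) h6
  simp only at h7
  have h8 : δ * τ₂ = δ * τ₁ + (|K - (mm f d ν τ₁).re| + 1) := by
    simp only [τ₂]; field_simp
  have h9 := hK τ₂
  have h10 := le_abs_self (K - (mm f d ν τ₁).re)
  linarith

lemma mm_le {n : ℕ} (f : MvPolynomial (Fin n) ℝ) (d : ℕ) (hd : f.totalDegree ≤ d) (ν : ℝ)
    (hν : 1 ≤ ν) (τ : ℝ) (hτ : 0 ≤ τ) : (mm f d ν τ).re ≤ (mm f d ν 0).re := by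
  have hdm : ∀ τ : ℝ, HasDerivAt (fun τ => (mm f d ν τ).re)
      (2 * Real.tanh (2 * τ) * N1 f d ν τ).re τ := fun τ => hasDerivAt_re (hasDerivAt_mm f d ν τ)
  have : AntitoneOn (fun τ => (mm f d ν τ).re) (Set.Ici 0) := by
    refine antitoneOn_of_deriv_nonpos (convex_Ici 0)
      (fun τ _ => (hdm τ).continuousAt.continuousWithinAt)
      (fun τ _ => (hdm τ).differentiableAt.differentiableWithinAt) ?_
    intro τ hτ
    rw [interior_Ici] at hτ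
    rw [(hdm τ).deriv]
    have e : (2 * (Real.tanh (2 * τ) : ℂ) * N1 f d ν τ)
        = ((2 * Real.tanh (2 * τ) : ℝ) : ℂ) * N1 f d ν τ := by push_cast; ring
    rw [e, Complex.re_ofReal_mul]
    have h1 := N1_nonpos f d hd ν hν τ (Set.mem_Ioi.1 hτ).le
    have h2 := tanh_nonneg' (x := 2 * τ) (by linarith [Set.mem_Ioi.1 hτ])
    exact mul_nonpos_of_nonneg_of_nonpos (by positivity) h1
  exact this (Set.mem_Ici.2 le_rfl) (Set.mem_Ici.2 hτ) hτ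

/-- real form of `m` -/
lemma mm_re {n : ℕ} (f : MvPolynomial (Fin n) ℝ) (d : ℕ) (ν : ℝ) (τ : ℝ) :
    Integrable (fun w => (1 + cf d τ * ‖eval (Z τ w) (hE n f)‖ ^ 2) ^ ν) (μ n) ∧
    (mm f d ν τ).re = ∫ w, (1 + cf d τ * ‖eval (Z τ w) (hE n f)‖ ^ 2) ^ ν ∂(μ n) := by
  have hint := integrable_Psi (nonneg_sf f) (cf_nonneg d τ) (cf_le_one d τ) (ν : ℂ) 1 τ
  have e : ∀ w : W n, Psi (sf f) (cf d τ) (ν : ℂ) 1 (Z τ w)
      = (((1 + cf d τ * ‖eval (Z τ w) (hE n f)‖ ^ 2) ^ ν : ℝ) : ℂ) := by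
    intro w
    have hS : (0:ℝ) ≤ 1 + cf d τ * ‖eval (Z τ w) (hE n f)‖ ^ 2 := by
      have := cf_nonneg d τ
      positivity
    simp only [Psi, map_one, one_mul, eval_sf]
    rw [Complex.ofReal_cpow hS]; push_cast; ring_nf
  simp only [e] at hint
  have h1 := hint.re
  refine ⟨by simpa using h1, ?_⟩
  unfold mm J
  simp only [e]
  rw [integral_complex_ofReal, Complex.ofReal_re]

end

end Pool.Agent.Helper228.GH
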