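import Pool.Agent.Helper228.GH.Key3

/-! The key inequality `E‖f(z_τ)‖^p ≤ (cosh 2τ)^{dp/2} E|f|^p`. -/

open MeasureTheory ProbabilityTheory Filter MvPolynomial
open scoped ENNReal Topology ComplexConjugate

namespace Pool.Agent.Helper228.GH

noncomputable section

lemma cf_zero (d : ℕ) : cf d 0 = 1 := by simp [cf]

lemma cf_pos (d : ℕ) (τ : ℝ) : 0 < cf d τ := pow_pos (inv_pos.2 (Real.cosh_pos _)) _

/-- inequality with `1 + t |f|²` -/
lemma key_t {n : ℕ} (f : MvPolynomial (Fin n) ℝ) (d : ℕ) (hd : f.totalDegree ≤ d) (ν : ℝ)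
    (hν : 1 ≤ ν) (τ : ℝ) (hτ : 0 ≤ τ) (t : ℝ) (ht : 0 < t) :
    (Integrable (fun w => (1 + cf d τ * (t * ‖eval (Z τ w) (hE n f)‖ ^ 2)) ^ ν) (μ n)) ∧
    (Integrable (fun w => (1 + t * ‖eval (Z 0 w) (hE n f)‖ ^ 2) ^ ν) (μ n)) ∧
    ∫ w, (1 + cf d τ * (t * ‖eval (Z τ w) (hE n f)‖ ^ 2)) ^ ν ∂(μ n)
      ≤ ∫ w, (1 + t * ‖eval (Z 0 w) (hE n f)‖ ^ 2) ^ ν ∂(μ n) := by
  set ft := C (√t) * f with hft
  have hdt : ft.totalDegree ≤ d := by
    refine (totalDegree_mul _ _).trans ?_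
    rw [totalDegree_C, zero_add]; exact hd
  have h := mm_le ft d hdt ν hν τ hτ
  have h1 := mm_re ft d ν τ
  have h2 := mm_re ft d ν 0
  have e : ∀ (τ : ℝ) (w : W n), ‖eval (Z τ w) (hE n ft)‖ ^ 2 = t * ‖eval (Z τ w) (hE n f)‖ ^ 2 := by
    intro τ w
    rw [hft, map_mul, hE_C, map_mul, eval_C, norm_mul, Complex.norm_real,
      Real.norm_of_nonneg (Real.sqrt_nonneg t), mul_pow, Real.sq_sqrt ht.le]
  simp only [e, cf_zero, one_mul] at h1 h2
  refine ⟨h1.1, h2.1, ?_⟩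
  rw [h1.2, h2.2] at h
  exact h

lemma integrable_rpow {n : ℕ} (f : MvPolynomial (Fin n) ℝ) (ν : ℝ) (hν : 1 ≤ ν) (τ : ℝ) :
    Integrable (fun w => (‖eval (Z τ w) (hE n f)‖ ^ 2) ^ ν) (μ n) := by
  have h := (mm_re f 0 ν τ).1
  simp only [cf, pow_zero, one_mul] at h
  refine h.mono' ?_ (Eventually.of_forall fun w => ?_)
  · refine Continuous.aestronglyMeasurable ?_
    exact ((continuous_evalZ τ (hE n f)).norm.pow 2).rpow_const fun w => Or.inr (by linarith)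
  · rw [Real.norm_of_nonneg (by positivity)]
    exact Real.rpow_le_rpow (by positivity) (by linarith) (by linarith)

lemma key_eps {n : ℕ} (f : MvPolynomial (Fin n) ℝ) (d : ℕ) (hd : f.totalDegree ≤ d) (ν : ℝ)
    (hν : 1 ≤ ν) (τ : ℝ) (hτ : 0 ≤ τ) (ε : ℝ) (hε : 0 < ε) :
    cf d τ ^ ν * ∫ w, (‖eval (Z τ w) (hE n f)‖ ^ 2) ^ ν ∂(μ n)
      ≤ ∫ w, (ε + ‖eval (Z 0 w) (hE n f)‖ ^ 2) ^ ν ∂(μ n) := by
  have h := key_t f d hd ν hν τ hτ ε⁻¹ (inv_pos.2 hε)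
  obtain ⟨i1, i2, h⟩ := h
  have hc := cf_pos d τ
  have e1 : ∫ w, (ε + ‖eval (Z 0 w) (hE n f)‖ ^ 2) ^ ν ∂(μ n)
      = ε ^ ν * ∫ w, (1 + ε⁻¹ * ‖eval (Z 0 w) (hE n f)‖ ^ 2) ^ ν ∂(μ n) := by
    rw [← integral_const_mul]
    congr 1; funext w
    rw [← Real.mul_rpow hε.le (by positivity)]
    congr 1
    field_simp
  have e2 : cf d τ ^ ν * ∫ w, (‖eval (Z τ w) (hE n f)‖ ^ 2) ^ ν ∂(μ n)
      = ε ^ ν * ∫ w, (cf d τ * (ε⁻¹ * ‖eval (Z τ w) (hE n f)‖ ^ 2)) ^ ν ∂(μ n) := by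
    rw [← integral_const_mul, ← integral_const_mul]
    congr 1; funext w
    rw [← Real.mul_rpow hε.le (by positivity), ← Real.mul_rpow hc.le (by positivity)]
    congr 1
    field_simp
  rw [e1, e2]
  refine mul_le_mul_of_nonneg_left (le_trans ?_ h) (by positivity)
  refine integral_mono_of_nonneg (Eventually.of_forall fun w => by positivity) i1
    (Eventually.of_forall fun w => ?_)
  exact Real.rpow_le_rpow (by positivity) (by linarith) (by linarith)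

lemma key_nu {n : ℕ} (f : MvPolynomial (Fin n) ℝ) (d : ℕ) (hd : f.totalDegree ≤ d) (ν : ℝ)
    (hν : 1 ≤ ν) (τ : ℝ) (hτ : 0 ≤ τ) :
    cf d τ ^ ν * ∫ w, (‖eval (Z τ w) (hE n f)‖ ^ 2) ^ ν ∂(μ n)
      ≤ ∫ w, (‖eval (Z 0 w) (hE n f)‖ ^ 2) ^ ν ∂(μ n) := by
  have hlim : Tendsto (fun k : ℕ => ∫ w, (1 / ((k : ℝ) + 1) + ‖eval (Z 0 w) (hE n f)‖ ^ 2) ^ ν ∂(μ n))
      atTop (𝓝 (∫ w, (‖eval (Z 0 w) (hE n f)‖ ^ 2) ^ ν ∂(μ n))) := by
    refine tendsto_integral_of_dominated_convergence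
      (fun w => (1 + ‖eval (Z 0 w) (hE n f)‖ ^ 2) ^ ν) ?_ ?_ ?_ ?_
    · intro k
      refine Continuous.aestronglyMeasurable ?_
      exact (continuous_const.add ((continuous_evalZ 0 (hE n f)).norm.pow 2)).rpow_const
        fun w => Or.inr (by linarith)
    · have h := (mm_re f 0 ν 0).1
      simpa only [cf, pow_zero, one_mul] using h
    · intro k
      refine Eventually.of_forall fun w => ?_
      rw [Real.norm_of_nonneg (by positivity)]
      refine Real.rpow_le_rpow (by positivity) ?_ (by linarith)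
      have : 1 / ((k : ℝ) + 1) ≤ 1 := by
        rw [div_le_one (by positivity)]
        have : (0:ℝ) ≤ k := by positivity
        linarith
      linarith
    · refine Eventually.of_forall fun w => ?_
      have h1 : Tendsto (fun k : ℕ => 1 / ((k : ℝ) + 1) + ‖eval (Z 0 w) (hE n f)‖ ^ 2) atTop
          (𝓝 (0 + ‖eval (Z 0 w) (hE n f)‖ ^ 2)) :=
        tendsto_one_div_add_atTop_nhds_zero_nat.add tendsto_const_nhds
      rw [zero_add] at h1
      exact h1.rpow_const (Or.inr (by linarith))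
  exact ge_of_tendsto' hlim fun k => key_eps f d hd ν hν τ hτ _ (by positivity)

lemma eval_Z_zero {n : ℕ} (f : MvPolynomial (Fin n) ℝ) (w : W n) :
    eval (Z 0 w) (hE n f) = ((eval w.1 f : ℝ) : ℂ) := by
  induction f using MvPolynomial.induction_on with
  | C a => simp
  | add p q hp hq => simp [hp, hq]
  | mul_X p i hp =>
    simp only [map_mul, hp, hE_X, eval_X]
    simp [Z]

lemma eval_Z_neg {n : ℕ} (f : MvPolynomial (Fin n) ℝ) (τ : ℝ) (w : W n) :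
    ‖eval (Z (-τ) w) (hE n f)‖ = ‖eval (Z τ w) (hE n f)‖ := by
  have h : eval (Z (-τ) w) (hE n f) = eval (Z τ w) (bE n f) := by
    induction f using MvPolynomial.induction_on with
    | C a => simp
    | add p q hp hq => simp [hp, hq]
    | mul_X p i hp =>
      simp only [map_mul, hp, hE_X, bE_X, eval_X]
      simp [Z]
      left; ring
  rw [h, eval_b, RCLike.norm_conj]

/-- `z_ζ = x cos ζ + y sin ζ` -/
def zz {n : ℕ} (ζ : ℂ) (w : W n) (j : Fin n) : ℂ :=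
  Complex.cos ζ * w.1 j + Complex.sin ζ * w.2 j

/-- complexified polynomial -/
abbrev fC {n : ℕ} (f : MvPolynomial (Fin n) ℝ) : MvPolynomial (Fin n) ℂ :=
  MvPolynomial.map Complex.ofRealHom f

lemma eval_zz {n : ℕ} (f : MvPolynomial (Fin n) ℝ) (θ τ : ℝ) (w : W n) :
    eval (zz (θ + τ * Complex.I) w) (fC f)
      = eval (Z τ (ContinuousLinearMap.rotation θ w)) (hE n f) := by
  rw [hE_apply, eval_rename]
  congr 1
  congr 1
  funext j
  simp only [zz, Function.comp, Z, Sum.elim_inl, ContinuousLinearMap.rotation_apply,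
    Complex.cos_add, Complex.sin_add, Complex.cos_mul_I, Complex.sin_mul_I, Pi.add_apply,
    Pi.smul_apply, smul_eq_mul]
  push_cast
  ring

lemma key_zeta {n : ℕ} (f : MvPolynomial (Fin n) ℝ) (d : ℕ) (hd : f.totalDegree ≤ d) (ν : ℝ)
    (hν : 1 ≤ ν) (ζ : ℂ) :
    Integrable (fun w => (‖eval (zz ζ w) (fC f)‖ ^ 2) ^ ν) (μ n) ∧
    ∫ w, (‖eval (zz ζ w) (fC f)‖ ^ 2) ^ ν ∂(μ n)
      ≤ (Real.cosh (2 * ζ.im)) ^ (d * ν) * ∫ x, (|eval x f| ^ 2) ^ ν ∂(γ n) := by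
  set θ := ζ.re
  set τ := ζ.im
  have hζ : ζ = θ + τ * Complex.I := (Complex.re_add_im ζ).symm
  rw [hζ]
  simp only [eval_zz]
  have hmp : MeasurePreserving (ContinuousLinearMap.rotation (E := Fin n → ℝ) θ) (μ n) (μ n) :=
    ⟨(ContinuousLinearMap.rotation θ).continuous.measurable, map_rotation n θ⟩
  have hI0 := integrable_rpow f ν hν τ
  have hcont : Continuous (fun w => (‖eval (Z τ w) (hE n f)‖ ^ 2) ^ ν) :=
    ((continuous_evalZ τ (hE n f)).norm.pow 2).rpow_const fun w => Or.inr (by linarith)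
  constructor
  · exact hmp.integrable_comp_of_integrable hI0
  have e1 : ∫ w, (‖eval (Z τ (ContinuousLinearMap.rotation θ w)) (hE n f)‖ ^ 2) ^ ν ∂(μ n)
      = ∫ w, (‖eval (Z τ w) (hE n f)‖ ^ 2) ^ ν ∂(μ n) := by
    have := integral_map (μ := μ n) (φ := ContinuousLinearMap.rotation (E := Fin n → ℝ) θ)
      (f := fun w => (‖eval (Z τ w) (hE n f)‖ ^ 2) ^ ν) hmp.measurable.aemeasurable
      hcont.aestronglyMeasurable
    rw [hmp.map_eq] at this
    exact this.symm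
  rw [e1]
  have e2 : ∫ w, (‖eval (Z τ w) (hE n f)‖ ^ 2) ^ ν ∂(μ n)
      = ∫ w, (‖eval (Z |τ| w) (hE n f)‖ ^ 2) ^ ν ∂(μ n) := by
    rcases abs_choice τ with h | h
    · rw [h]
    · rw [h]; simp only [eval_Z_neg]
  have e3 : Real.cosh (2 * τ) = Real.cosh (2 * |τ|) := by
    rw [← Real.cosh_abs, abs_mul, abs_two]
  have e4 : ∫ w, (‖eval (Z 0 w) (hE n f)‖ ^ 2) ^ ν ∂(μ n) = ∫ x, (|eval x f| ^ 2) ^ ν ∂(γ n) := by
    simp only [eval_Z_zero, Complex.norm_real, Real.norm_eq_abs]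
    have := integral_prod_mul (μ := γ n) (ν := γ n) (fun x => (|eval x f| ^ 2) ^ ν) (fun _ => (1:ℝ))
    simpa using this
  have hk := key_nu f d hd ν hν |τ| (abs_nonneg τ)
  rw [e2, e3, ← e4]
  have hc := cf_pos d |τ|
  have hch := Real.cosh_pos (2 * |τ|)
  have e5 : Real.cosh (2 * |τ|) ^ (d * ν) = (cf d |τ| ^ ν)⁻¹ := by
    rw [cf, ← Real.rpow_natCast, ← Real.rpow_mul (by positivity), Real.inv_rpow hch.le, inv_inv]
  rw [e5, inv_mul_eq_div, le_div_iff₀ (Real.rpow_pos_of_pos hc _), mul_comm]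
  exact hk

end

end Pool.Agent.Helper228.GH
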