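import Pool.Agent.Helper228.GH.Final

/-! The Gaussian Bernstein–Markov inequality `‖Nf‖_p ≤ 2e d ‖f‖_p`, `p ≥ 2`. -/

open MeasureTheory ProbabilityTheory Filter MvPolynomial
open scoped ENNReal Topology ComplexConjugate

namespace Pool.Agent.Helper228.GH

noncomputable section

lemma sq_rpow_half (a : ℝ) (ha : 0 ≤ a) (p : ℝ) : (a ^ 2) ^ (p / 2) = a ^ p := by
  rw [← Real.rpow_natCast, ← Real.rpow_mul ha]
  congr 1; push_cast; ring

lemma key_p {n : ℕ} (f : MvPolynomial (Fin n) ℝ) (d : ℕ) (hd : f.totalDegree ≤ d) (p : ℝ)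
    (hp : 2 ≤ p) (ζ : ℂ) :
    Integrable (fun w => ‖eval (zz ζ w) (fC f)‖ ^ p) (μ n) ∧
    ∫ w, ‖eval (zz ζ w) (fC f)‖ ^ p ∂(μ n)
      ≤ (Real.cosh (2 * ζ.im)) ^ (d * (p / 2)) * ∫ x, |eval x f| ^ p ∂(γ n) := by
  have h := key_zeta f d hd (p / 2) (by linarith) ζ
  simp only [sq_rpow_half _ (norm_nonneg _), sq_rpow_half _ (abs_nonneg _)] at h
  exact h

/-- the dual function `|Nf|^{p-2} Nf` -/
def gd {n : ℕ} (h : MvPolynomial (Fin n) ℝ) (p : ℝ) (x : Fin n → ℝ) : ℝ :=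
  |eval x h| ^ (p - 2) * eval x h

lemma continuous_gd {n : ℕ} (h : MvPolynomial (Fin n) ℝ) (p : ℝ) (hp : 2 ≤ p) :
    Continuous (gd h p) := by
  refine Continuous.mul ?_ (MvPolynomial.continuous_eval h)
  exact (MvPolynomial.continuous_eval h).abs.rpow_const fun x => Or.inr (by linarith)

lemma abs_gd {n : ℕ} (h : MvPolynomial (Fin n) ℝ) (p : ℝ) (hp : 2 ≤ p) (x : Fin n → ℝ) :
    |gd h p x| = |eval x h| ^ (p - 1) := by
  rw [gd, abs_mul, abs_of_nonneg (Real.rpow_nonneg (abs_nonneg _) _)]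
  rcases eq_or_lt_of_le (abs_nonneg (eval x h)) with h0 | h0
  · rw [← h0, mul_zero, Real.zero_rpow (by linarith)]
  · nth_rewrite 2 [← Real.rpow_one |eval x h|]
    rw [← Real.rpow_add h0]; congr 1; ring

lemma gd_mul {n : ℕ} (h : MvPolynomial (Fin n) ℝ) (p : ℝ) (hp : 2 ≤ p) (x : Fin n → ℝ) :
    eval x h * gd h p x = |eval x h| ^ p := by
  rw [gd]
  have e : eval x h * (|eval x h| ^ (p - 2) * eval x h) = |eval x h| ^ (p - 2) * |eval x h| ^ 2 := by
    rw [sq_abs]; ring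
  rw [e]
  rcases eq_or_lt_of_le (abs_nonneg (eval x h)) with h0 | h0
  · rw [← h0, Real.zero_rpow (by linarith : p ≠ 0)]; simp
  · rw [← Real.rpow_natCast, ← Real.rpow_add h0]; congr 1; push_cast; ring

lemma gd_growth {n : ℕ} (h : MvPolynomial (Fin n) ℝ) (p : ℝ) (hp : 2 ≤ p) :
    ∃ (A : ℝ) (K : ℕ), 0 ≤ A ∧ ∀ x, |gd h p x| ≤ A * (1 + ‖x‖) ^ K := by
  obtain ⟨A, K, hA, hb⟩ := poly_growth h
  set m := ⌈p - 1⌉₊
  refine ⟨(1 + A) ^ m, K * m, by positivity, fun x => ?_⟩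
  rw [abs_gd h p hp x]
  have h1 : 1 ≤ 1 + |eval x h| := by linarith [abs_nonneg (eval x h)]
  have hN : 1 ≤ (1 + ‖x‖) ^ K := one_le_pow₀ (by linarith [norm_nonneg x])
  calc |eval x h| ^ (p - 1) ≤ (1 + |eval x h|) ^ (p - 1) :=
        Real.rpow_le_rpow (abs_nonneg _) (by linarith) (by linarith)
    _ ≤ (1 + |eval x h|) ^ (m : ℝ) := Real.rpow_le_rpow_of_exponent_le h1 (Nat.le_ceil _)
    _ = (1 + |eval x h|) ^ m := Real.rpow_natCast _ _
    _ ≤ ((1 + A) * (1 + ‖x‖) ^ K) ^ m := by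
        refine pow_le_pow_left₀ (by linarith) ?_ m
        have := hb x
        nlinarith
    _ = (1 + A) ^ m * (1 + ‖x‖) ^ (K * m) := by rw [mul_pow, ← pow_mul]

lemma integrable_eval_rpow {n : ℕ} (h : MvPolynomial (Fin n) ℝ) (p : ℝ) (hp : 2 ≤ p) :
    Integrable (fun x => |eval x h| ^ p) (γ n) := by
  have h0 := (key_p h h.totalDegree le_rfl p hp 0).1
  have e : ∀ w : W n, ‖eval (zz 0 w) (fC h)‖ ^ p = |eval w.1 h| ^ p := by
    intro w; rw [zz_zero, eval_ofReal, Complex.norm_real, Real.norm_eq_abs]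
  simp only [e] at h0
  have h1 := h0.prod_left_ae
  have : NeZero (γ n) := ⟨IsProbabilityMeasure.ne_zero _⟩
  obtain ⟨y, hy⟩ := h1.exists
  exact hy

lemma main_ineq {n : ℕ} (f : MvPolynomial (Fin n) ℝ) (d : ℕ) (hd1 : 1 ≤ d)
    (hd : f.totalDegree ≤ d) (p : ℝ) (hp : 2 ≤ p) :
    (∫ x, |eval x (nf f)| ^ p ∂(γ n)) ^ (1 / p)
      ≤ 2 * Real.exp 1 * d * (∫ x, |eval x f| ^ p ∂(γ n)) ^ (1 / p) := by
  have hp0 : 0 < p := by linarith
  set q := Real.conjExponent p with hq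
  have hpq : p.HolderConjugate q := Real.HolderConjugate.conjExponent (by linarith)
  have hq0 : 0 < q := hpq.symm.pos
  set Av := ∫ x, |eval x (nf f)| ^ p ∂(γ n) with hAv
  set Fv := ∫ x, |eval x f| ^ p ∂(γ n) with hFv
  have hA0 : 0 ≤ Av := integral_nonneg fun x => by positivity
  have hF0 : 0 ≤ Fv := integral_nonneg fun x => by positivity
  set g := gd (nf f) p with hg
  have hgc : Continuous g := continuous_gd (nf f) p hp
  obtain ⟨A, K, hA, hgb⟩ := gd_growth (nf f) p hp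
  set φ : ℂ → ℂ := fun ζ => ∫ w, G0 (fC f) g ζ w ∂(μ n) with hφ
  obtain ⟨hdiff, hit⟩ := iter2 (fC f) hgc A K hA hgb
  rw [integral_G2 f g hgc A K hA hgb] at hit
  have e1 : ∫ x, eval x (nf f) * g x ∂(γ n) = Av := by
    rw [hAv]; congr 1; funext x; exact gd_mul (nf f) p hp x
  rw [e1] at hit
  -- the dual norm
  have hgq : ∀ x, |g x| ^ q = |eval x (nf f)| ^ p := by
    intro x
    rw [hg, abs_gd _ p hp, ← Real.rpow_mul (abs_nonneg _)]
    congr 1
    exact hpq.sub_one_mul_conj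
  have hAvW : ∫ w : W n, ‖g w.1‖ ^ q ∂(μ n) = Av := by
    have := integral_prod_mul (μ := γ n) (ν := γ n) (fun x => |eval x (nf f)| ^ p) (fun _ => (1:ℝ))
    simp only [Real.norm_eq_abs, hgq]
    simpa using this
  have hintA : Integrable (fun w : W n => ‖g w.1‖ ^ q) (μ n) := by
    simp only [Real.norm_eq_abs, hgq]
    have := (integrable_eval_rpow (nf f) p hp).mul_prod (μ := γ n) (ν := γ n)
      (integrable_const (1:ℝ))
    simpa using this
  -- bound of φ
  have hbound : ∀ ζ : ℂ, ‖φ ζ‖ ≤ ((Real.cosh (2 * ζ.im)) ^ (d * (p / 2)) * Fv) ^ (1 / p)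
      * Av ^ (1 / q) := by
    intro ζ
    obtain ⟨hk1, hk2⟩ := key_p f d hd p hp ζ
    have m1 : MemLp (fun w : W n => ‖eval (zz ζ w) (fC f)‖) (ENNReal.ofReal p) (μ n) := by
      rw [← integrable_norm_rpow_iff (continuous_evalzz ζ _).norm.aestronglyMeasurable
        (by simpa using hp0) ENNReal.ofReal_ne_top, ENNReal.toReal_ofReal hp0.le]
      simpa using hk1
    have m2 : MemLp (fun w : W n => ‖g w.1‖) (ENNReal.ofReal q) (μ n) := by
      have hcg : Continuous (fun w : W n => ‖g w.1‖) := (hgc.comp continuous_fst).norm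
      rw [← integrable_norm_rpow_iff hcg.aestronglyMeasurable
        (by simpa using hq0) ENNReal.ofReal_ne_top, ENNReal.toReal_ofReal hq0.le]
      simpa using hintA
    have h1 : ‖φ ζ‖ ≤ ∫ w, ‖eval (zz ζ w) (fC f)‖ * ‖g w.1‖ ∂(μ n) := by
      refine (norm_integral_le_integral_norm _).trans (le_of_eq ?_)
      congr 1; funext w
      rw [G0, norm_mul, Complex.norm_real]
    refine h1.trans ((integral_mul_le_Lp_mul_Lq_of_nonneg hpq
      (Eventually.of_forall fun w => norm_nonneg _) (Eventually.of_forall fun w => norm_nonneg _)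
      m1 m2).trans ?_)
    rw [hAvW]
    refine mul_le_mul_of_nonneg_right ?_ (by positivity)
    exact Real.rpow_le_rpow (integral_nonneg fun w => by positivity) hk2 (by positivity)
  -- Cauchy estimate
  set Rr : ℝ := 1 / √d with hR
  have hd0 : (0:ℝ) < d := by exact_mod_cast hd1
  have hRpos : 0 < Rr := by positivity
  have hR2 : Rr ^ 2 = 1 / d := by
    rw [hR, div_pow, Real.sq_sqrt hd0.le]; ring
  set M := (Real.exp 1) * Fv ^ (1 / p) * Av ^ (1 / q) with hM
  have hsph : ∀ ζ ∈ Metric.sphere (0:ℂ) Rr, ‖φ ζ‖ ≤ M := by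
    intro ζ hζ
    refine (hbound ζ).trans ?_
    rw [hM]
    refine mul_le_mul_of_nonneg_right ?_ (by positivity)
    rw [Real.mul_rpow (by positivity) hF0]
    refine mul_le_mul_of_nonneg_right ?_ (by positivity)
    rw [← Real.rpow_mul (Real.cosh_pos _).le]
    have e2 : (d : ℝ) * (p / 2) * (1 / p) = d / 2 := by field_simp
    rw [e2]
    have him : |ζ.im| ≤ Rr := by
      rw [mem_sphere_zero_iff_norm] at hζ
      rw [← hζ]; exact Complex.abs_im_le_norm ζ
    have h2 : Real.cosh (2 * ζ.im) ≤ Real.exp (2 / d) := by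
      refine (Real.cosh_le_exp_half_sq _).trans (Real.exp_le_exp.2 ?_)
      have h3 : ζ.im ^ 2 ≤ Rr ^ 2 := sq_le_sq' (by linarith [(abs_le.1 him).1]) (abs_le.1 him).2
      rw [hR2] at h3
      calc (2 * ζ.im) ^ 2 / 2 = 2 * ζ.im ^ 2 := by ring
        _ ≤ 2 * (1 / (d : ℝ)) := by linarith
        _ = 2 / (d : ℝ) := by ring
    calc Real.cosh (2 * ζ.im) ^ ((d:ℝ) / 2) ≤ Real.exp (2 / d) ^ ((d:ℝ) / 2) :=
          Real.rpow_le_rpow (Real.cosh_pos _).le h2 (by positivity)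
      _ = Real.exp 1 := by
          rw [← Real.exp_mul]; congr 1; field_simp
  have hC := Complex.norm_iteratedDeriv_le_of_forall_mem_sphere_norm_le 2 hRpos
    (hdiff.diffContOnCl (s := Metric.ball 0 Rr)) hsph
  rw [hit, Complex.norm_real, Real.norm_of_nonneg hA0, hR2] at hC
  have hC2 : Av ≤ 2 * Real.exp 1 * d * Fv ^ (1 / p) * Av ^ (1 / q) := by
    refine hC.trans (le_of_eq ?_)
    rw [hM]
    simp only [Nat.factorial]
    field_simp
    push_cast
    ring
  rcases eq_or_lt_of_le hA0 with h0 | h0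
  · rw [← h0, Real.zero_rpow (by positivity)]
    positivity
  · have hsplit : Av = Av ^ (1 / p) * Av ^ (1 / q) := by
      rw [← Real.rpow_add h0]
      have : 1 / p + 1 / q = 1 := by
        have := hpq.inv_add_inv_eq_one
        simpa [one_div] using this
      rw [this, Real.rpow_one]
    have hpos : 0 < Av ^ (1 / q) := Real.rpow_pos_of_pos h0 _
    nth_rewrite 1 [hsplit] at hC2
    exact le_of_mul_le_mul_right hC2 hpos

end

end Pool.Agent.Helper228.GH
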